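import Pool.Agent.Lib_helper22.OX.EMb
import Pool.Agent.Lib_helper28.OX.Y6b

/-!
# Six colours, residues 3 and 4: two edges at one vertex
-/

set_option autoImplicit false
set_option linter.unusedSectionVars false
set_option linter.unusedVariables false

open scoped Classical
open Finset
open Pool.Agent.O2 (PC Cb CrOn pr ms dg nd addE)
open Pool.Agent.O3 (con hit Clq Non)
open Pool.Agent.OW28 (NoCE Add1)
open Pool.Agent.OW
open Pool.Agent.OW.S5 (PS Tgt)
open Pool.Agent.OX25 (T6 tgap6 small_card lemmaT6)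
open Pool.Agent.OX28

namespace Pool.Agent.OX22

variable {V : Type} {K : ℕ} {b : ℕ → ℤ} {G : SimpleGraph V} {S X T M R W : Finset V} {w : V}

theorem le_addE {F : Finset (V × V)} {u v : V} (h : G.Adj u v) : (addE G F).Adj u v := Or.inl h

theorem dg_le_addE (F : Finset (V × V)) (W : Finset V) (t : V) : dg G W t ≤ dg (addE G F) W t := by
  unfold dg
  apply card_le_card
  intro y hy
  obtain ⟨h1, h2⟩ := mem_filter.1 hy
  exact mem_filter.2 ⟨h1, Or.inl h2⟩

/-- the number of new edges in a subset -/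
theorem Yy_addE (G : SimpleGraph V) (K : ℕ) (b : ℕ → ℤ) (F : Finset (V × V)) (X : Finset V) :
    Yy G K b X ≤ Yy (addE G F) K b X + 2 * (newE G F X).card := by
  have h1 : (pr (addE G F) X X : ℤ) ≤ pr G X X + 2 * (newE G F X).card := by
    exact_mod_cast pr_addE_le G F X
  unfold Yy df
  linarith

/-- a `K`-clique in a tight set of residue `0` of a graph with new edges at `p` -/
theorem star_clq (T6h : T6 K b) (hI : IH K b S.card)
    (hY : ∀ X ⊆ S, X ≠ S → K + 1 ≤ X.card → 3 ≤ Yy G K b X) {F : Finset (V × V)} {p : V}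
    (hW : W ⊆ S) (hne : W ≠ S) (hp : p ∈ W) (hF : ∀ e ∈ F, e.1 = p ∨ e.2 = p)
    (hT : Tgt K b (addE G F) W) :
    ∃ T ⊆ W.erase p, T.card = K ∧ Clq G T ∧ ∀ t ∈ T, dg G W t ≤ K := by
  have hlt : W.card < S.card := card_lt_card (hW.ssubset_of_ne hne)
  have ih : IH K b (W.card + 1) := by
    intro V' G' S' h1 h2
    exact hI V' G' S' h1 (by omega)
  obtain ⟨T, hTW, hTc, hTq, hTd⟩ := lemmaT6 T6h ih hT hp (by
    intro R' hR' hYR
    by_contra hpR
    have hd : K ∣ R'.card - 1 := by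
      by_contra hd
      have h1 := (tgap6 T6h ih hT hR').2 hd
      have h2 : (4 : ℤ) ≤ K := by exact_mod_cast T6h.hK
      linarith
    have hc' := small_card hR' hd
    have h1 := Yy_addE G K b F R'
    have h2 : newE G F R' = ∅ := by
      rw [eq_empty_iff_forall_notMem]
      intro e he
      obtain ⟨h3, h4, h5, -, -⟩ := mem_filter.1 he
      rcases hF e h3 with h6 | h6
      · exact hpR (h6 ▸ h4)
      · exact hpR (h6 ▸ h5)
    rw [h2, card_empty] at h1
    have h3 := hY R' (hR'.sub.trans hW) (fun e => by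
      have h4 := card_le_card hR'.sub
      rw [e] at h4
      omega) hc'
    push_cast at h1
    linarith)
  refine ⟨T, hTW, hTc, ?_, fun t ht => (dg_le_addE F W t).trans (hTd t ht).le⟩
  intro a ha c hc hac
  have h1 := hTq a ha c hc hac
  rcases h1 with h1 | ⟨-, h1 | h1⟩
  · exact h1
  · exfalso
    rcases hF _ h1 with h2 | h2
    · exact (mem_erase.1 (hTW ha)).1 h2
    · exact (mem_erase.1 (hTW hc)).1 h2
  · exfalso
    rcases hF _ h1 with h2 | h2
    · exact (mem_erase.1 (hTW hc)).1 h2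
    · exact (mem_erase.1 (hTW ha)).1 h2

/-- the hypotheses of `EM` for `K = 6` -/
theorem em6 (h : Cex G S 6 b6) (hr : (S.card - 1) % 6 + 2 ≤ 6)
    (hM : M ⊆ S) (hMq : Clq G M) (hMl : ∀ m ∈ M, dg G S m = 6)
    (hMc : M.card = 3 ∨ M.card = 4)
    (hT : T ⊆ S \ M) (hk : T.card = 6) (hq : Clq G T) (hd : ∀ t ∈ T, dg G (S \ M) t ≤ 6) :
    False :=
  EM h.cr (by omega) (add_one Nm6 h) (noBig_of_NoCE (by omega) (no_ce Nm6 h))
    (fun T' h1 h2 h3 => by
      have := low_le Nm6 h hr h1 h2 h3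
      omega) hM hMq hMl hMc hT hk hq hd

/-- special form: the complement of `W` is a low clique with three or four vertices -/
theorem em6' (h : Cex G S 6 b6) (hr : (S.card - 1) % 6 + 2 ≤ 6) {j : ℕ} (hj : j = 3 ∨ j = 4)
    (hW : W ⊆ S) (hL : LowClq G (S) (S \ W) 6 j)
    (hT : T ⊆ W) (hk : T.card = 6) (hq : Clq G T) (hd : ∀ t ∈ T, dg G W t ≤ 6) : False := by
  have e : S \ (S \ W) = W := Finset.sdiff_sdiff_eq_self hW
  obtain ⟨h1, h2, h3⟩ := hL
  exact em6 h hr (M := S \ W) (T := T) sdiff_subset h2 h3 (by omega) (by rw [e]; exact hT) hk hq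
    (by rw [e]; exact hd)

/-- residues 3, 4: a proper subset with `Y ≤ 4` is the complement of a low clique -/
theorem low_34 (h : Cex G S 6 b6) (hr : (S.card - 1) % 6 = 3 ∨ (S.card - 1) % 6 = 4)
    (hR : R ⊆ S) (hne : R ≠ S) (hc : 6 + 1 ≤ R.card) (hy : Yy G 6 b6 R ≤ 4) :
    (R.card - 1) % 6 = 0 ∧ LowClq G S (S \ R) 6 ((S.card - 1) % 6) := by
  have hlt : (R.card - 1) % 6 < 6 := Nat.mod_lt _ (by omega)
  rcases hr with hr | hr
  · have h1 := tab_r3 h hr R hR hne hc
    have h2 : (R.card - 1) % 6 = 0 := by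
      unfold r3 at h1
      split_ifs at h1 <;> first | assumption | linarith
    exact ⟨h2, by rw [hr]; exact low_r3_0 h hr hR hne hc h2 hy⟩
  · have h1 := tab_r4 h hr R hR hne hc
    have h2 : (R.card - 1) % 6 = 0 := by
      unfold r4 at h1
      split_ifs at h1 <;> first | assumption | linarith
    exact ⟨h2, by rw [hr]; exact low_r4_0 h hr hR hne hc h2 hy⟩

/-- AE2*: two edges at the vertex `p` can be added to a proper subset -/
theorem ae_star (h : Cex G S 6 b6) (hr : (S.card - 1) % 6 = 3 ∨ (S.card - 1) % 6 = 4)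
    (hR : R ⊆ S) (hne : R ≠ S) {F : Finset (V × V)} (hF2 : F.card ≤ 2) {p : V}
    (hF : ∀ e ∈ F, e.1 = p ∨ e.2 = p) : Cb (addE G F) R 6 := by
  by_contra hcb
  obtain ⟨W, hW, hcr, hWc, hlt, hnew, hWY⟩ := addE_small h.cr h.ih hR hne hcb
  have hWS := hW.trans hR
  have hWne : W ≠ S := by rintro rfl; exact absurd hlt (lt_irrefl _)
  have hn2 : ((newE G F W).card : ℤ) ≤ 2 := by
    exact_mod_cast (newE_card_le G F W).trans hF2
  obtain ⟨hd, hL⟩ := low_34 h hr hWS hWne hWc (by linarith)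
  have h4 := Y_four Nm6 h W hWS hWne hWc
  have hY1 := Yy_addE G 6 b6 F W
  have hY2 : Yy (addE G F) 6 b6 W ≤ 0 := by
    have := h.ih V (addE G F) W hcr hlt
    unfold Yy
    linarith
  have hT : Tgt 6 b6 (addE G F) W := ⟨hcr, Nat.dvd_of_mod_eq_zero hd, by linarith⟩
  have hp : p ∈ W := by
    obtain ⟨e, he⟩ := hnew
    obtain ⟨h3, h5, h6, -, -⟩ := mem_filter.1 he
    rcases hF e h3 with h7 | h7
    · exact h7 ▸ h5
    · exact h7 ▸ h6
  obtain ⟨T, h5, h6, h7, h8⟩ := star_clq T6_6 h.ih (fun X h1 h2 h3 => by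
    linarith [Y_four Nm6 h X h1 h2 h3]) hWS hWne hp hF hT
  exact em6' h (by omega) (by omega) hWS hL (h5.trans (erase_subset _ _)) h6 h7 h8

/-- the colouring form of AE2* -/
theorem star_pc (h : Cex G S 6 b6) (hr : (S.card - 1) % 6 = 3 ∨ (S.card - 1) % 6 = 4)
    (hR : R ⊆ S) (hne : R ≠ S) {p a c : V} (hp : p ∈ R) (ha : a ∈ R) (hc : c ∈ R)
    (hpa : p ≠ a) (hpc : p ≠ c) : ∃ ψ : V → Fin 6, PC G R ψ ∧ ψ p ≠ ψ a ∧ ψ p ≠ ψ c := by
  have h1 := ae_star h hr hR hne (F := {(p, a), (p, c)}) (p := p)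
    ((card_insert_le _ _).trans (by simp)) (by
      intro e he
      rcases mem_insert.1 he with rfl | he
      · exact Or.inl rfl
      · rw [mem_singleton.1 he]; exact Or.inl rfl)
  obtain ⟨ψ, hψ⟩ := (Pool.Agent.O2.cb_fin (by omega)).1 h1
  refine ⟨ψ, fun u hu v hv huv => hψ u hu v hv (Or.inl huv), ?_, ?_⟩
  · exact hψ p hp a ha (Or.inr ⟨hpa, Or.inl (by simp)⟩)
  · exact hψ p hp c hc (Or.inr ⟨hpc, Or.inl (by simp)⟩)

/-- the outer neighbourhoods of a low clique are equal or differ in at least three vertices -/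
theorem low_on (h : Cex G S 6 b6) (hr : (S.card - 1) % 6 = 3 ∨ (S.card - 1) % 6 = 4)
    (hM : M ⊆ S) (hMq : Clq G M) (hMl : ∀ m ∈ M, dg G S m = 6) {m m' : V} (hm : m ∈ M)
    (hm' : m' ∈ M) (h2 : (on G S M m' \ on G S M m).card ≤ 2) : on G S M m ⊆ on G S M m' := by
  intro p hp
  by_contra hp'
  have hMne : M.Nonempty := ⟨m, hm⟩
  have hXne : S \ M ≠ S := by
    intro h
    have h1 := hM hm
    rw [← h] at h1
    exact (mem_sdiff.1 h1).2 hm
  -- two vertices that cover the difference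
  have hpX : p ∈ S \ M := mem_sdiff.2 (mem_on.1 hp).1
  have hcov : ∃ a ∈ S \ M, ∃ c ∈ S \ M, p ≠ a ∧ p ≠ c ∧
      ∀ y ∈ on G S M m' \ on G S M m, y = a ∨ y = c := by
    have hpne : ∀ y ∈ on G S M m' \ on G S M m, p ≠ y := by
      rintro y hy rfl
      exact (mem_sdiff.1 hy).2 hp
    have hsub : ∀ y ∈ on G S M m' \ on G S M m, y ∈ S \ M := fun y hy =>
      mem_sdiff.2 (mem_on.1 (mem_sdiff.1 hy).1).1
    -- the difference is not empty
    have hne0 : (on G S M m' \ on G S M m).Nonempty := by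
      rw [nonempty_iff_ne_empty]
      intro h0
      apply hp'
      have h3 : on G S M m' ⊆ on G S M m := sdiff_eq_empty_iff_subset.1 h0
      have h4 := out_card hM hMq hm
      have h5 := out_card hM hMq hm'
      rw [hMl m hm] at h4
      rw [hMl m' hm'] at h5
      have h6 : on G S M m' = on G S M m := eq_of_subset_of_card_le h3 (by
        show ((S \ M).filter fun y => G.Adj m y).card ≤ ((S \ M).filter fun y => G.Adj m' y).card
        omega)
      rw [h6]
      exact hp
    obtain ⟨a, ha⟩ := hne0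
    by_cases h1 : ∃ c ∈ on G S M m' \ on G S M m, c ≠ a
    · obtain ⟨c, hc, hca⟩ := h1
      refine ⟨a, hsub a ha, c, hsub c hc, hpne a ha, hpne c hc, ?_⟩
      intro y hy
      by_contra hcon
      rw [not_or] at hcon
      have h3 : ({a, c, y} : Finset V) ⊆ on G S M m' \ on G S M m := by
        intro z hz
        rw [mem_insert, mem_insert, mem_singleton] at hz
        rcases hz with rfl | rfl | rfl
        · exact ha
        · exact hc
        · exact hy
      have h4 := card_le_card h3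
      rw [card_insert_of_notMem (by
        rw [mem_insert, mem_singleton, not_or]
        exact ⟨fun e => hca e.symm, fun e => hcon.1 e.symm⟩), card_pair (fun e => hcon.2 e.symm)] at h4
      omega
    · push Not at h1
      exact ⟨a, hsub a ha, a, hsub a ha, hpne a ha, hpne a ha, fun y hy => Or.inl (h1 y hy)⟩
  obtain ⟨a, ha, c, hc, hpa, hpc, hcov⟩ := hcov
  obtain ⟨ψ, hψ, h3, h4⟩ := star_pc h hr sdiff_subset hXne hpX ha hc hpa hpc
  obtain ⟨Z, hZ, hZm⟩ := low_clq_col h.cr (by omega) hM hMq hMl hMne hψ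
  have h5 : ψ p ∈ Z := by
    rw [← hZm m hm]
    exact mem_image_of_mem ψ hp
  rw [← hZm m' hm'] at h5
  obtain ⟨y, hy, hyp⟩ := mem_image.1 h5
  have hy' : y ∈ on G S M m' := hy
  by_cases hyN : y ∈ on G S M m
  · -- two vertices of `on m` with the same colour
    have h6 : ((on G S M m).image ψ).card = (on G S M m).card := by
      have h7 := hZm m hm
      have h8 := out_card hM hMq hm
      rw [hMl m hm] at h8
      show (((S \ M).filter fun y => G.Adj m y).image ψ).card =
        ((S \ M).filter fun y => G.Adj m y).card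
      rw [h7]
      omega
    have h7 := (card_image_iff.1 h6) (mem_coe.2 hyN) (mem_coe.2 hp) hyp
    exact hp' (h7 ▸ hy')
  · rcases hcov y (mem_sdiff.2 ⟨hy', hyN⟩) with rfl | rfl
    · exact h3 hyp.symm
    · exact h4 hyp.symm

/-- there is no low clique with five vertices -/
theorem no_low5 (h : Cex G S 6 b6) (hr : (S.card - 1) % 6 = 3 ∨ (S.card - 1) % 6 = 4)
    (hM : M ⊆ S) (hMq : Clq G M) (hMl : ∀ m ∈ M, dg G S m = 6) (hMc : 5 ≤ M.card) : False := by
  obtain ⟨M', hM', hMc'⟩ := exists_subset_card_eq hMc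
  have hM'S := hM'.trans hM
  have hq' : Clq G M' := fun a ha c hc hac => hMq a (hM' ha) c (hM' hc) hac
  have hl' : ∀ m ∈ M', dg G S m = 6 := fun m hm => hMl m (hM' hm)
  have hon : ∀ m ∈ M', (on G S M' m).card = 2 := by
    intro m hm
    have h1 := out_card hM'S hq' hm
    rw [hl' m hm, hMc'] at h1
    show ((S \ M').filter fun y => G.Adj m y).card = 2
    omega
  have heq : ∀ m ∈ M', ∀ m' ∈ M', on G S M' m ⊆ on G S M' m' := by
    intro m hm m' hm'
    apply low_on h hr hM'S hq' hl' hm hm'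
    have h1 := card_le_card (sdiff_subset (s := on G S M' m') (t := on G S M' m))
    rw [hon m' hm'] at h1
    exact h1
  obtain ⟨x, hx⟩ := card_pos.1 (show 0 < M'.card by omega)
  have htw : M'.erase x ⊆ tws G S x := by
    intro y hy
    obtain ⟨h1, h2⟩ := mem_erase.1 hy
    refine mem_filter.2 ⟨hM'S h2, h1, hq' x hx y h2 h1.symm, ?_⟩
    intro c hc hcx hcy
    by_cases hcM : c ∈ M'
    · exact ⟨fun _ => hq' y h2 c hcM hcy.symm, fun _ => hq' x hx c hcM hcx.symm⟩
    · constructor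
      · intro h3
        exact (mem_on.1 (heq x hx y h2 (mem_on.2 ⟨⟨hc, hcM⟩, h3⟩))).2
      · intro h3
        exact (mem_on.1 (heq y h2 x hx (mem_on.2 ⟨⟨hc, hcM⟩, h3⟩))).2
  have h1 := card_le_card htw
  rw [card_erase_of_mem hx, hMc'] at h1
  have h2 := c4' Nm6 h x (hM'S hx) (hl' x hx)
  omega

end Pool.Agent.OX22
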