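import Pool.Agent.Lib_helper22.OX.EM

/-!
# Gluing two colourings; at least three boundary vertices; two colours off a clique
-/

set_option autoImplicit false
set_option linter.unusedSectionVars false
set_option linter.unusedVariables false

open scoped Classical
open Finset
open Pool.Agent.O2 (PC Cb CrOn pr ms dg nd addE)
open Pool.Agent.O3 (con hit Clq)
open Pool.Agent.OW28 (NoCE Add1)
open Pool.Agent.OW

namespace Pool.Agent.OX22

variable {V : Type} {K : ℕ} {G : SimpleGraph V} {S X T M R R' D : Finset V} {w : V}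

/-- an injective map of colours that takes one injective colouring of `D` to another -/
theorem col_map {ψ φ : V → Fin K} (h1 : Set.InjOn ψ D) (h2 : Set.InjOn φ D) :
    ∃ π : Fin K → Fin K, Function.Injective π ∧ ∀ a ∈ D, π (φ a) = ψ a := by
  set f : Fin K → Fin K := fun i => if h : ∃ a ∈ D, φ a = i then ψ h.choose else i with hf
  have hfa : ∀ a ∈ D, f (φ a) = ψ a := by
    intro a ha
    have h : ∃ b ∈ D, φ b = φ a := ⟨a, ha, rfl⟩
    have h3 := h.choose_spec
    have h4 : h.choose = a := h2 (mem_coe.2 h3.1) (mem_coe.2 ha) h3.2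
    simp only [hf]
    rw [dif_pos h, h4]
  obtain ⟨g, hg⟩ := Finset.exists_equiv_extend_of_card_eq (α := Fin K) (β := Fin K)
    (t := (univ : Finset (Fin K))) (by simp) (s := D.image φ) (f := f) (subset_univ _) (by
      intro i hi j hj hij
      obtain ⟨a, ha, rfl⟩ := mem_image.1 (mem_coe.1 hi)
      obtain ⟨b, hb, rfl⟩ := mem_image.1 (mem_coe.1 hj)
      rw [hfa a ha, hfa b hb] at hij
      rw [h1 (mem_coe.2 ha) (mem_coe.2 hb) hij])
  refine ⟨fun i => (g i : Fin K), fun i j hij => g.injective (Subtype.ext hij), ?_⟩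
  intro a ha
  show ((g (φ a) : Fin K)) = ψ a
  rw [hg (φ a) (mem_image_of_mem φ ha), hfa a ha]

/-- gluing -/
theorem glue_col (hS : ¬ Cb G S K) (hRS : S \ R ⊆ R') {ψ φ : V → Fin K} (hψ : PC G R ψ)
    (hφ : PC G R' φ) (h1 : Set.InjOn ψ D) (h2 : Set.InjOn φ D)
    (hbd : ∀ a ∈ bd G S R, a ∈ R' ∧ ∃ d ∈ D, ψ a = ψ d ∧ φ a = φ d) : False := by
  obtain ⟨π, hπ, hπD⟩ := col_map h1 h2
  apply hS
  apply Pool.Agent.O2.cb_of_pc (φ := fun a => if a ∈ R then ψ a else π (φ a))
  have key : ∀ a ∈ R, ∀ c ∈ S, c ∉ R → G.Adj a c → ψ a ≠ π (φ c) := by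
    intro a ha c hc hcR hac he
    have hab : a ∈ bd G S R := mem_filter.2 ⟨ha, c, mem_sdiff.2 ⟨hc, hcR⟩, hac⟩
    obtain ⟨haR', d, hd, e1, e2⟩ := hbd a hab
    rw [e1, ← hπD d hd, ← e2] at he
    exact hφ a haR' c (hRS (mem_sdiff.2 ⟨hc, hcR⟩)) hac (hπ he)
  intro a ha c hc hac
  by_cases haR : a ∈ R
  · by_cases hcR : c ∈ R
    · simp only [if_pos haR, if_pos hcR]
      exact hψ a haR c hcR hac
    · simp only [if_pos haR, if_neg hcR]
      exact key a haR c hc hcR hac
  · by_cases hcR : c ∈ R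
    · simp only [if_neg haR, if_pos hcR]
      exact (key c hcR a ha haR hac.symm).symm
    · simp only [if_neg haR, if_neg hcR]
      intro he
      exact hφ a (hRS (mem_sdiff.2 ⟨ha, haR⟩)) c (hRS (mem_sdiff.2 ⟨hc, hcR⟩)) hac (hπ he)

/-- a proper subset with at least three vertices has at least three boundary vertices -/
theorem bd_three (hK : 0 < K) (hS : CrOn G S K) (hadd : Add1 G S K) (hR : R ⊆ S) (hne : R ≠ S)
    (hc : 3 ≤ R.card) : 3 ≤ (bd G S R).card := by
  by_contra hlt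
  have hbR : bd G S R ⊆ R := filter_subset _ _
  obtain ⟨P, hP1, hP2, hP3⟩ := exists_subsuperset_card_eq hbR (show (bd G S R).card ≤ 2 by omega)
    (show 2 ≤ R.card by omega)
  obtain ⟨p, q, hpq, rfl⟩ := card_eq_two.1 hP3
  have hp : p ∈ R := hP2 (by simp)
  have hq : q ∈ R := hP2 (by simp)
  obtain ⟨ψ, hψ, h1⟩ := hadd.all hK hS hR hne hp hq hpq
  have hR'S : (S \ R) ∪ {p, q} ⊆ S := union_subset sdiff_subset (hP2.trans hR)
  have hR'ne : (S \ R) ∪ {p, q} ≠ S := by
    intro e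
    have h2 : R ⊆ {p, q} := by
      intro a ha
      have h3 := hR ha
      rw [← e] at h3
      rcases mem_union.1 h3 with h4 | h4
      · exact absurd ha (mem_sdiff.1 h4).2
      · exact h4
    have h3 := card_le_card h2
    rw [hP3] at h3
    omega
  obtain ⟨φ, hφ, h2⟩ := hadd.all hK hS hR'S hR'ne (p := p) (q := q)
    (mem_union_right _ (by simp)) (mem_union_right _ (by simp)) hpq
  refine glue_col (D := {p, q}) hS.1 subset_union_left hψ hφ ?_ ?_ ?_
  · intro a ha b hb hab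
    rw [coe_pair] at ha hb
    rcases ha with rfl | rfl <;> rcases hb with rfl | rfl
    · rfl
    · exact absurd hab h1
    · exact absurd hab.symm h1
    · rfl
  · intro a ha b hb hab
    rw [coe_pair] at ha hb
    rcases ha with rfl | rfl <;> rcases hb with rfl | rfl
    · rfl
    · exact absurd hab h2
    · exact absurd hab.symm h2
    · rfl
  · intro a ha
    exact ⟨mem_union_right _ (hP1 ha), a, hP1 ha, rfl, rfl⟩

/-- a colour of `U` and a colour which is not that of `w` -/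
theorem Em.two_a (e : Em G S K X T w) (hL : 3 ≤ (Lp G S X T).card)
    (hcol : ∀ ψ : V → Fin K, PC G X ψ →
      ((bd G S X).image ψ).card ≤ (Bp G S X T).card + 1)
    {ψ : V → Fin K} (hψ : PC G X ψ) {y y' : V} (hy : y ∈ bd G S X) (hyT : y ∉ T)
    (hy' : y' ∈ bd G S X) (hyT' : y' ∉ T) {t0 : V} (ht0 : t0 ∈ Lp G S X T) (hyt : ψ y = ψ t0)
    (hne : ψ y ≠ ψ y') (hw : ψ y' ≠ ψ w) : False := by
  have hLB : ∀ t ∈ Lp G S X T, ψ t ∉ (Bp G S X T).image ψ := by
    intro t ht hc
    obtain ⟨c, hc1, hc2⟩ := mem_image.1 hc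
    obtain ⟨hcT, hcb⟩ := mem_Bp.1 hc1
    obtain ⟨htT, htb⟩ := mem_Lp.1 ht
    have := clq_inj hψ e.TX e.q (mem_coe.2 hcT) (mem_coe.2 htT) hc2
    exact htb (this ▸ hcb)
  have h2 := e.Bimg hψ
  obtain ⟨t1, ht1, ht1c⟩ := clq_surj hψ e.TX e.q e.cT (ψ y')
  by_cases ht1b : t1 ∈ bd G S X
  · -- exchange
    have hb : t1 ∈ Bp G S X T := mem_Bp.2 ⟨ht1, ht1b⟩
    obtain ⟨t, ht, hal⟩ := e.allow hψ ht1 (L := (Lp G S X T).erase t0)
      ((erase_subset _ _).trans (filter_subset _ _)) (by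
        rw [card_erase_of_mem ht0]; omega)
    obtain ⟨htt, htL⟩ := mem_erase.1 ht
    have h3 := hcol _ (e.exch hψ ht1 (by rw [ht1c]; exact hw) htL hal)
    have h4 := card_le_card (e.exch_bd (ψ := ψ) hb htL)
    have h5 : insert (ψ t) (insert (ψ t0) ((Bp G S X T).image ψ)) ⊆
        (((Bp G S X T).image ψ).erase (ψ t1) ∪ {ψ t}) ∪ (((bd G S X) \ T).image ψ) := by
      intro i hi
      rw [mem_union, mem_union, mem_erase, mem_singleton]
      rcases mem_insert.1 hi with rfl | hi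
      · exact Or.inl (Or.inr rfl)
      · rcases mem_insert.1 hi with rfl | hi
        · right
          rw [← hyt]
          exact mem_image_of_mem ψ (mem_sdiff.2 ⟨hy, hyT⟩)
        · by_cases h6 : i = ψ t1
          · right
            rw [h6, ht1c]
            exact mem_image_of_mem ψ (mem_sdiff.2 ⟨hy', hyT'⟩)
          · exact Or.inl (Or.inl ⟨h6, hi⟩)
    have h6 := card_le_card h5
    rw [card_insert_of_notMem, card_insert_of_notMem (hLB t0 ht0), h2] at h6
    · omega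
    · rw [mem_insert, not_or]
      refine ⟨fun h => htt ?_, hLB t htL⟩
      exact clq_inj hψ e.TX e.q (mem_coe.2 (mem_Lp.1 htL).1) (mem_coe.2 (mem_Lp.1 ht0).1) h
  · have ht1L : t1 ∈ Lp G S X T := mem_Lp.2 ⟨ht1, ht1b⟩
    have h5 : insert (ψ t1) (insert (ψ t0) ((Bp G S X T).image ψ)) ⊆ (bd G S X).image ψ := by
      intro i hi
      rcases mem_insert.1 hi with rfl | hi
      · rw [ht1c]; exact mem_image_of_mem ψ hy'
      · rcases mem_insert.1 hi with rfl | hi
        · rw [← hyt]; exact mem_image_of_mem ψ hy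
        · exact Em.Bsub ψ hi
    have h6 := card_le_card h5
    rw [card_insert_of_notMem, card_insert_of_notMem (hLB t0 ht0), h2] at h6
    · have := hcol ψ hψ
      omega
    · rw [mem_insert, not_or]
      refine ⟨fun h => hne ?_, hLB t1 ht1L⟩
      rw [hyt, ← ht1c, h]

/-- the boundary off `T` has at most one colour different from that of `w` -/
theorem Em.two (e : Em G S K X T w) (hL : 3 ≤ (Lp G S X T).card)
    (hcol : ∀ ψ : V → Fin K, PC G X ψ →
      ((bd G S X).image ψ).card ≤ (Bp G S X T).card + 1)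
    {ψ : V → Fin K} (hψ : PC G X ψ) {y y' : V} (hy : y ∈ bd G S X) (hyT : y ∉ T)
    (hy' : y' ∈ bd G S X) (hyT' : y' ∉ T) (hw : ψ y ≠ ψ w) (hw' : ψ y' ≠ ψ w) : ψ y = ψ y' := by
  by_contra hne
  obtain ⟨t0, ht0, ht0c⟩ := clq_surj hψ e.TX e.q e.cT (ψ y)
  by_cases ht0b : t0 ∈ bd G S X
  · obtain ⟨t, ht, hal⟩ := e.allow hψ ht0 (L := Lp G S X T) (filter_subset _ _) (by omega)
    obtain ⟨htT, htb⟩ := mem_Lp.1 ht
    have h3 := e.exch hψ ht0 (by rw [ht0c]; exact hw) ht hal
    have hoff : ∀ a, a ∉ T → ψ (Equiv.swap t0 t a) = ψ a := by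
      intro a ha
      have h4 : Equiv.swap t0 t a = a := Equiv.swap_apply_of_ne_of_ne
        (by rintro rfl; exact ha ht0) (by rintro rfl; exact ha htT)
      rw [h4]
    refine e.two_a hL hcol h3 hy hyT hy' hyT' ht ?_ ?_ ?_
    · show ψ (Equiv.swap t0 t y) = ψ (Equiv.swap t0 t t)
      rw [hoff y hyT, Equiv.swap_apply_right, ht0c]
    · show ψ (Equiv.swap t0 t y) ≠ ψ (Equiv.swap t0 t y')
      rw [hoff y hyT, hoff y' hyT']
      exact hne
    · show ψ (Equiv.swap t0 t y') ≠ ψ (Equiv.swap t0 t w)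
      rw [hoff y' hyT', hoff w e.wT]
      exact hw'
  · exact e.two_a hL hcol hψ hy hyT hy' hyT' (mem_Lp.2 ⟨ht0, ht0b⟩) ht0c.symm hne hw'

end Pool.Agent.OX22
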