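import Pool.Agent.Lib_helper22.OX.TR4b
import Pool.Agent.Lib_helper22.OX.GL

/-!
# Six colours, residue 4: (c1)
-/

set_option autoImplicit false
set_option linter.unusedSectionVars false
set_option linter.unusedVariables false
set_option synthInstance.maxSize 2000

open scoped Classical
open Finset
open Pool.Agent.O2 (PC Cb CrOn pr ms dg nd addE)
open Pool.Agent.O3 (con hit Clq Non)
open Pool.Agent.OW28 (NoCE Add1)
open Pool.Agent.OW
open Pool.Agent.OX28
open Pool.Agent.OX63 (P1 Cs clone6)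

namespace Pool.Agent.OX22

variable {V : Type} {G : SimpleGraph V} {S X T M R W : Finset V} {w x v y z : V}

/-- (c1) holds for low vertices with more twins than `x` -/
def Ih (G : SimpleGraph V) (S : Finset V) (x : V) : Prop :=
  ∀ x' v', (tws G S x).card < (tws G S x').card → P1 G S x' v' →
      Clq G (Pool.Agent.OW.cn G S v' x')

theorem x_bd (p : P1 G S x v) (c : Cs G S x v R) : x ∈ bd G S R :=
  mem_filter.2 ⟨c.xR, v, mem_sdiff.2 ⟨p.hv, c.vR⟩, p.ad⟩

theorem nb_R (c : Cs G S x v R) {u : V} (hu : u ∈ S) (hxu : G.Adj x u) (huv : u ≠ v) : u ∈ R :=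
  c.cn (Pool.Agent.OW.mem_cn.2 (Or.inr ⟨huv, hu, hxu⟩))

/-- at most two boundary colours: impossible -/
theorem two_cols (h : Cex G S 6 b6) (hr : (S.card - 1) % 6 = 4) (p : P1 G S x v)
    (c : Cs G S x v R) (ih : Ih G S x) (hf : 5 ≤ (S \ R).card)
    (hcol : ∀ ψ : V → Fin 6, PC G R ψ → ((bd G S R).image ψ).card ≤ 2) : False := by
  have hxb := x_bd p c
  have h3 := bd_three (by omega : 0 < 6) h.cr (add_one Nm6 h) c.RS c.ne (by
    have := c.card
    omega)
  have h4 : 2 ≤ ((bd G S R).erase x).card := by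
    rw [card_erase_of_mem hxb]
    omega
  obtain ⟨P, hP1, hP2⟩ := exists_subset_card_eq h4
  obtain ⟨y, z, hyz, rfl⟩ := card_eq_two.1 hP2
  obtain ⟨hyx, hyb⟩ := mem_erase.1 (hP1 (show y ∈ ({y, z} : Finset V) by simp))
  obtain ⟨hzx, hzb⟩ := mem_erase.1 (hP1 (show z ∈ ({y, z} : Finset V) by simp))
  refine tri_false h hr c.RS hf c.xR (mem_filter.1 hyb).1 (mem_filter.1 hzb).1 hyx.symm hzx.symm
    hyz ?_ hxb hyb p.low ih
  intro ψ hψ
  by_contra hcon
  rw [not_or, not_or] at hcon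
  obtain ⟨g1, g2, g3⟩ := hcon
  have h5 : ({ψ x, ψ y, ψ z} : Finset (Fin 6)) ⊆ (bd G S R).image ψ := by
    intro i hi
    rw [mem_insert, mem_insert, mem_singleton] at hi
    rcases hi with rfl | rfl | rfl
    · exact mem_image_of_mem ψ hxb
    · exact mem_image_of_mem ψ hyb
    · exact mem_image_of_mem ψ hzb
  have h6 := card_le_card h5
  rw [card_insert_of_notMem (by
    rw [mem_insert, mem_singleton, not_or]
    exact ⟨g1, g2⟩), card_pair g3] at h6
  have := hcol ψ hψ
  omega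

/-- (4.3) -/
theorem ns_case (h : Cex G S 6 b6) (hr : (S.card - 1) % 6 = 4) (p : P1 G S x v)
    (c : Cs G S x v R) (ih : Ih G S x) (hf : (S \ R).card = 5) (hm : (R.card - 1) % 6 = 5)
    (hY : Yy G 6 b6 R ≤ 8) : False := by
  obtain ⟨a5, ha5, al, hal, be, hbe, halbe, hq, h7, hlow, hN5, hn1, hn2, -⟩ :=
    ns4 h hr c.RS c.card hf hm hY
  have hvA : v ∈ S \ R := mem_sdiff.2 ⟨p.hv, c.vR⟩
  by_cases hva : v = a5
  · subst hva
    -- a low vertex outside
    obtain ⟨a1, ha1⟩ := card_pos.1 (show 0 < ((S \ R).erase v).card by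
      rw [card_erase_of_mem hvA]; omega)
    obtain ⟨ha1v, ha1A⟩ := mem_erase.1 ha1
    obtain ⟨hl1, hN1⟩ := hlow a1 ha1A ha1v
    have htw : ((S \ R).erase v).erase a1 ⊆ tws G S a1 := by
      intro a ha
      obtain ⟨haa, ha'⟩ := mem_erase.1 ha
      obtain ⟨hav, haA⟩ := mem_erase.1 ha'
      refine mem_filter.2 ⟨(mem_sdiff.1 haA).1, haa, hq a1 ha1A a haA haa.symm, ?_⟩
      intro u hu hu1 hua
      by_cases huR : u ∈ R
      · rw [hN1 u huR, (hlow a haA hav).2 u huR]
      · have huA : u ∈ S \ R := mem_sdiff.2 ⟨hu, huR⟩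
        exact ⟨fun _ => hq a haA u huA hua.symm, fun _ => hq a1 ha1A u huA hu1.symm⟩
    have h3 := card_le_card htw
    rw [card_erase_of_mem ha1, card_erase_of_mem hvA, hf] at h3
    have hP : P1 G S a1 v := by
      refine ⟨(mem_sdiff.1 ha1A).1, hl1, p.hv, hq a1 ha1A v hvA ha1v, ?_, by omega, by omega⟩
      intro ht
      have e1 : al ≠ a1 := fun e => (mem_sdiff.1 ha1A).2 (e ▸ hal)
      have e2 : al ≠ v := fun e => c.vR (e ▸ hal)
      exact hn1 ((ht.2 al (c.RS hal) e1 e2).1 ((hN1 al hal).2 (Or.inl rfl)))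
    by_cases hlt : (tws G S x).card < (tws G S a1).card
    · have h4 := ih a1 v hlt hP
      have h5 := c4 Nm6 h (by omega) a1 hP.hx hl1 v p.hv hP.ad h4
      omega
    · -- `x` and its twins are among the three neighbours of `v`
      have h4 : insert x (tws G S x) ⊆ R.filter fun y => G.Adj v y := by
        intro u hu
        rcases mem_insert.1 hu with rfl | hu
        · exact mem_filter.2 ⟨c.xR, p.ad.symm⟩
        · obtain ⟨huS, hux, hxu, htw'⟩ := mem_filter.1 hu
          have huv : u ≠ v := by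
            rintro rfl
            exact p.nt ⟨hxu, htw'⟩
          refine mem_filter.2 ⟨nb_R c huS hxu huv, ?_⟩
          exact ((htw' v p.hv p.ad.ne' (Ne.symm huv)).1 p.ad).symm
      have h5 := card_le_card h4
      rw [card_insert_of_notMem (fun e => (mem_filter.1 e).2.1 rfl), hN5] at h5
      omega
  · -- a low vertex `v`: its clique contains a further neighbour of `x`
    obtain ⟨-, hNv⟩ := hlow v hvA hva
    have hx := (hNv x c.xR).1 p.ad.symm
    obtain ⟨a, ha⟩ := card_pos.1 (show 0 < (((S \ R).erase v).erase a5).card by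
      rw [card_erase_of_mem (mem_erase.2 ⟨fun e => hva e.symm, ha5⟩), card_erase_of_mem hvA]
      omega)
    obtain ⟨haa, ha'⟩ := mem_erase.1 ha
    obtain ⟨hav, haA⟩ := mem_erase.1 ha'
    have h1 := ((hlow a haA haa).2 x c.xR).2 hx
    exact (mem_sdiff.1 haA).2 (nb_R c (mem_sdiff.1 haA).1 h1.symm hav)

/-- the last case of (4.4): the boundary is contained in `B`, `x`, `w` -/
theorem last_case (h : Cex G S 6 b6) (hr : (S.card - 1) % 6 = 4) (p : P1 G S x v)
    (c : Cs G S x v R) (hm : (R.card - 1) % 6 = 5) (e : Em G S 6 R T w)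
    (hB : (Bp G S R T).card = 3) (hL : (Lp G S R T).card = 3) (hxT : x ∉ T) (hxw : x ≠ w)
    (hxn : ∀ t ∈ T, ¬ G.Adj x t)
    (hbd : ∀ y ∈ bd G S R, y ∉ T → y = x ∨ y = w) : False := by
  have hK : 0 < 6 := by omega
  have hadd := add_one Nm6 h
  have hxR := c.xR
  have hTR := e.TX
  -- the colour of `w` is a colour of `B`
  have hwB : ∀ {R1 : Finset V} {φ : V → Fin 6}, T ⊆ R1 → w ∈ R1 → PC G R1 φ →
      ∃ b ∈ Bp G S R T, φ b = φ w := by
    intro R1 φ h1 h2 h3
    obtain ⟨t, ht, htc⟩ := clq_surj h3 h1 e.q e.cT (φ w)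
    refine ⟨t, mem_Bp.2 ⟨ht, ?_⟩, htc⟩
    by_contra htb
    exact h3 t (h1 ht) w h2 (e.lw t ht htb).1 htc
  -- the colouring of `R`
  have hψ : ∃ ψ : V → Fin 6, PC G R ψ ∧ ψ x ∉ (Bp G S R T).image ψ := by
    obtain ⟨ψ, hψ, hne⟩ := hadd.all hK h.cr c.RS c.ne hxR e.wX hxw
    by_cases hx : ψ x ∈ (Bp G S R T).image ψ
    · obtain ⟨b, hb, hbx⟩ := mem_image.1 hx
      have hbT := (mem_Bp.1 hb).1
      obtain ⟨t, ht, hal⟩ := e.allow hψ hbT (L := Lp G S R T) (filter_subset _ _) (by omega)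
      obtain ⟨htT, htb⟩ := mem_Lp.1 ht
      have hbt : b ≠ t := fun e' => htb (e' ▸ (mem_Bp.1 hb).2)
      refine ⟨_, e.exch hψ hbT (by rw [hbx]; exact hne) ht hal, ?_⟩
      intro hc
      obtain ⟨b', hb', hb'x⟩ := mem_image.1 hc
      obtain ⟨hb'T, hb'b⟩ := mem_Bp.1 hb'
      have hx' : Equiv.swap b t x = x := Equiv.swap_apply_of_ne_of_ne
        (by rintro rfl; exact hxT hbT) (by rintro rfl; exact hxT htT)
      simp only [hx'] at hb'x
      by_cases hbb : b' = b
      · rw [hbb, Equiv.swap_apply_left, ← hbx] at hb'x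
        exact hbt (clq_inj hψ hTR e.q (mem_coe.2 hbT) (mem_coe.2 htT) hb'x.symm)
      · have hb't : b' ≠ t := fun e' => htb (e' ▸ hb'b)
        rw [Equiv.swap_apply_of_ne_of_ne hbb hb't, ← hbx] at hb'x
        exact hbb (clq_inj hψ hTR e.q (mem_coe.2 hb'T) (mem_coe.2 hbT) hb'x)
    · exact ⟨ψ, hψ, hx⟩
  obtain ⟨ψ, hψ, hψx⟩ := hψ
  obtain ⟨bj, hbj, hbjw⟩ := hwB hTR e.wX hψ
  -- the other two vertices of `B`
  obtain ⟨bk, bm, hkm, hBe⟩ := card_eq_two.1 (show ((Bp G S R T).erase bj).card = 2 by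
    rw [card_erase_of_mem hbj]; omega)
  have hbk : bk ∈ (Bp G S R T).erase bj := by rw [hBe]; simp
  have hbm : bm ∈ (Bp G S R T).erase bj := by rw [hBe]; simp
  have hbkT := (mem_Bp.1 (mem_of_mem_erase hbk)).1
  have hbmT := (mem_Bp.1 (mem_of_mem_erase hbm)).1
  -- the other side
  set R' : Finset V := (S \ R) ∪ (insert x (insert w T)) with hR'
  have hTR' : T ⊆ R' := fun a ha =>
    mem_union_right _ (mem_insert_of_mem (mem_insert_of_mem ha))
  have hwR' : w ∈ R' := mem_union_right _ (mem_insert_of_mem (mem_insert_self _ _))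
  have hxR' : x ∈ R' := mem_union_right _ (mem_insert_self _ _)
  have hvR' : v ∈ R' := mem_union_left _ (mem_sdiff.2 ⟨p.hv, c.vR⟩)
  have hR'S : R' ⊆ S := by
    intro a ha
    rcases mem_union.1 ha with ha | ha
    · exact (mem_sdiff.1 ha).1
    · rcases mem_insert.1 ha with rfl | ha
      · exact p.hx
      · rcases mem_insert.1 ha with rfl | ha
        · exact c.RS e.wX
        · exact c.RS (hTR ha)
  have hR'ne : R' ≠ S := by
    intro he
    have h1 : R ⊆ insert x (insert w T) := by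
      intro a ha
      have h3 := c.RS ha
      rw [← he] at h3
      rcases mem_union.1 h3 with h4 | h4
      · exact absurd ha (mem_sdiff.1 h4).2
      · exact h4
    have h2 := card_le_card h1
    have h3 := card_insert_le x (insert w T)
    have h4 := card_insert_le w T
    rw [e.cT] at h4
    have h5 := c.card
    omega
  have hwk : w ≠ bk := fun e' => e.wT (e' ▸ hbkT)
  have hwm : w ≠ bm := fun e' => e.wT (e' ▸ hbmT)
  obtain ⟨φ, hφ, g1, g2⟩ := star_pc h (Or.inr hr) hR'S hR'ne hwR' (hTR' hbkT) (hTR' hbmT) hwk hwm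
  obtain ⟨b0, hb0, hb0w⟩ := hwB hTR' hwR' hφ
  have hb0j : b0 = bj := by
    by_contra hne
    have h1 : b0 ∈ (Bp G S R T).erase bj := mem_erase.2 ⟨hne, hb0⟩
    rw [hBe, mem_insert, mem_singleton] at h1
    rcases h1 with rfl | rfl
    · exact g1 hb0w.symm
    · exact g2 hb0w.symm
  subst hb0j
  -- recolour `x`
  obtain ⟨t, htL, htv⟩ : ∃ t ∈ Lp G S R T, φ t ≠ φ v := by
    obtain ⟨t1, ht1, t2, ht2, ht12⟩ := one_lt_card.1 (show 1 < (Lp G S R T).card by omega)
    by_cases h1 : φ t1 = φ v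
    · refine ⟨t2, ht2, fun h2 => ht12 ?_⟩
      exact clq_inj hφ hTR' e.q (mem_coe.2 (mem_Lp.1 ht1).1) (mem_coe.2 (mem_Lp.1 ht2).1)
        (h1.trans h2.symm)
    · exact ⟨t1, ht1, h1⟩
  obtain ⟨htT, htb⟩ := mem_Lp.1 htL
  have htw : φ t ≠ φ w := hφ t (hTR' htT) w hwR' (e.lw t htT htb).1
  set φ' : V → Fin 6 := fun a => if a = x then φ t else φ a with hφ'
  have hφ'x : φ' x = φ t := by simp [hφ']
  have hφ'n : ∀ a, a ≠ x → φ' a = φ a := fun a ha => by simp [hφ', ha]
  have hnx : ∀ a ∈ R', G.Adj x a → φ t ≠ φ a := by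
    intro a ha hxa
    rcases mem_union.1 ha with ha1 | ha1
    · have hav : a = v := by
        by_contra hav
        exact (mem_sdiff.1 ha1).2 (nb_R c (mem_sdiff.1 ha1).1 hxa hav)
      rw [hav]; exact htv
    · rcases mem_insert.1 ha1 with ha2 | ha2
      · exact absurd ha2 hxa.ne'
      · rcases mem_insert.1 ha2 with ha3 | ha3
        · rw [ha3]; exact htw
        · exact absurd hxa (hxn a ha3)
  have hφ'pc : PC G R' φ' := by
    intro a ha d hd had
    by_cases hax : a = x
    · have hdx : d ≠ x := fun e' => had.ne (hax.trans e'.symm)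
      rw [hax, hφ'x, hφ'n d hdx]
      exact hnx d hd (hax ▸ had)
    · by_cases hdx : d = x
      · rw [hdx, hφ'x, hφ'n a hax]
        exact (hnx a ha (hdx ▸ had.symm)).symm
      · rw [hφ'n a hax, hφ'n d hdx]
        exact hφ a ha d hd had
  have hBx : ∀ a ∈ Bp G S R T, a ≠ x := by
    rintro a ha rfl
    exact hxT (mem_Bp.1 ha).1
  -- gluing
  refine glue_col (D := insert x (Bp G S R T)) h.cr.1 (R' := R') subset_union_left hψ hφ'pc
    ?_ ?_ ?_
  · intro a ha d hd had
    have ha := mem_coe.1 ha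
    have hd := mem_coe.1 hd
    rcases mem_insert.1 ha with ha1 | ha1
    · rcases mem_insert.1 hd with hd1 | hd1
      · rw [ha1, hd1]
      · exfalso
        rw [ha1] at had
        exact hψx (mem_image.2 ⟨d, hd1, had.symm⟩)
    · rcases mem_insert.1 hd with hd1 | hd1
      · exfalso
        rw [hd1] at had
        exact hψx (mem_image.2 ⟨a, ha1, had⟩)
      · exact clq_inj hψ hTR e.q (mem_coe.2 (mem_Bp.1 ha1).1) (mem_coe.2 (mem_Bp.1 hd1).1) had
  · intro a ha d hd had
    have ha := mem_coe.1 ha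
    have hd := mem_coe.1 hd
    have key : ∀ a ∈ Bp G S R T, φ t ≠ φ a := by
      intro a ha he
      have h1 := clq_inj hφ hTR' e.q (mem_coe.2 htT) (mem_coe.2 (mem_Bp.1 ha).1) he
      exact htb (h1 ▸ (mem_Bp.1 ha).2)
    rcases mem_insert.1 ha with ha1 | ha1
    · rcases mem_insert.1 hd with hd1 | hd1
      · rw [ha1, hd1]
      · exfalso
        rw [ha1, hφ'x, hφ'n d (hBx d hd1)] at had
        exact key d hd1 had
    · rcases mem_insert.1 hd with hd1 | hd1
      · exfalso
        rw [hd1, hφ'x, hφ'n a (hBx a ha1)] at had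
        exact key a ha1 had.symm
      · rw [hφ'n a (hBx a ha1), hφ'n d (hBx d hd1)] at had
        exact clq_inj hφ hTR' e.q (mem_coe.2 (mem_Bp.1 ha1).1) (mem_coe.2 (mem_Bp.1 hd1).1) had
  · intro a ha
    by_cases haT : a ∈ T
    · exact ⟨hTR' haT, a, mem_insert_of_mem (mem_Bp.2 ⟨haT, ha⟩), rfl, rfl⟩
    · rcases hbd a ha haT with rfl | rfl
      · exact ⟨hxR', a, mem_insert_self _ _, rfl, rfl⟩
      · refine ⟨hwR', b0, mem_insert_of_mem hb0, hbjw.symm, ?_⟩
        rw [hφ'n a hxw.symm, hφ'n b0 (hBx b0 hb0), hb0w]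

/-- (c1) for `x`, if it holds for larger classes -/
theorem c1_main (h : Cex G S 6 b6) (hr : (S.card - 1) % 6 = 4) (p : P1 G S x v)
    (ih : Ih G S x) : Clq G (Pool.Agent.OW.cn G S v x) := by
  by_contra hno
  rcases clone6 h p with h1 | ⟨R, c⟩
  · exact hno h1
  obtain ⟨b0, b1, b2, b3, b4, b5⟩ := c.bound
  have ht := tab_q4 h hr c.RS c.ne c.card
  have hcS := card_sdiff_add_card_eq_card c.RS
  have hvA : v ∈ S \ R := mem_sdiff.2 ⟨p.hv, c.vR⟩
  have hpos := card_pos.2 ⟨v, hvA⟩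
  have hRc := c.card
  have hlt : (R.card - 1) % 6 < 6 := Nat.mod_lt _ (by omega)
  have hcase : (R.card - 1) % 6 = 0 ∨ (R.card - 1) % 6 = 1 ∨ (R.card - 1) % 6 = 2 ∨
      (R.card - 1) % 6 = 3 ∨ (R.card - 1) % 6 = 4 ∨ (R.card - 1) % 6 = 5 := by omega
  rcases hcase with g | g | g | g | g | g
  · rw [g] at ht
    have := b0 g
    have e : q4 0 = 4 := by decide
    linarith
  · rw [g] at ht
    have := b1 g
    have e : q4 1 = 8 := by decide
    linarith
  · rw [g] at ht
    have := b2 g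
    have e : q4 2 = 10 := by decide
    linarith
  · rw [g] at ht
    have := b3 g
    have e : q4 3 = 8 := by decide
    linarith
  · -- residue 4
    have hY := b4 g
    exact two_cols h hr p c ih (by omega) fun ψ hψ => k4 h hr c.RS hRc g hY hψ
  · -- residue 5
    have hY10 := b5 g
    have hev := Yev Nm6 G (X := R) (card_pos.1 (by omega))
    by_cases hY8 : Yy G 6 b6 R ≤ 8
    · by_cases h5 : (S \ R).card = 5
      · exact ns_case h hr p c ih h5 g hY8
      · exact two_cols h hr p c ih (by omega) fun ψ hψ => k5 h hr c.RS hRc h5 g hY8 hψ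
    · push Not at hY8
      have hYe : 10 ≤ Yy G 6 b6 R := by omega
      obtain ⟨T, hTR, hTc, hTq, hTn, hTd⟩ := c.emerald h p hno g hYe
      have hcol : ∀ ψ : V → Fin 6, PC G R ψ → ((bd G S R).image ψ).card ≤ 4 :=
        fun ψ hψ => k5b h hr c.RS hRc g hY10 hψ
      obtain ⟨⟨w, e⟩, hL3, hB4⟩ := mk6 h (by omega) c.RS c.ne hTR hTc hTq
        (fun t ht => (hTd t ht).le) (n := 4) (by omega) hcol
      have hsum := Lp_Bp (G := G) (S := S) (X := R) (T := T)
      rw [hTc] at hsum
      have hxb := x_bd p c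
      have hxT : x ∉ T := fun hx => hTn x hx (Pool.Agent.OW.mem_cn.2 (Or.inl rfl))
      have hxn : ∀ t ∈ T, ¬ G.Adj x t := by
        intro t ht hxt
        refine hTn t ht (Pool.Agent.OW.mem_cn.2 (Or.inr ⟨?_, c.RS (hTR ht), hxt⟩))
        exact fun e' => c.vR (e' ▸ hTR ht)
      obtain ⟨t1, ht1⟩ := card_pos.1 (show 0 < (Lp G S R T).card by omega)
      have hxw : x ≠ w := by
        rintro rfl
        exact hxn t1 (mem_Lp.1 ht1).1 (e.lw t1 (mem_Lp.1 ht1).1 (mem_Lp.1 ht1).2).1.symm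
      by_cases hBc : (Bp G S R T).card = 4
      · refine hxw (e.sat_w (by omega) h.cr (add_one Nm6 h) c.ne (by omega) ?_ hxb hxT)
        intro ψ hψ
        have := hcol ψ hψ
        omega
      · have hB3 : (Bp G S R T).card = 3 := by omega
        have hL : (Lp G S R T).card = 3 := by omega
        by_cases hy : ∃ y ∈ bd G S R, y ∉ T ∧ y ≠ x ∧ y ≠ w
        · obtain ⟨y, hyb, hyT, hyx, hyw⟩ := hy
          refine tri_false h hr c.RS (by omega) c.xR (mem_filter.1 hyb).1 e.wX hyx.symm hxw hyw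
            ?_ hxb hyb p.low ih
          intro ψ hψ
          by_contra hcon
          rw [not_or, not_or] at hcon
          obtain ⟨g1, g2, g3⟩ := hcon
          exact g1 (e.two (by omega) (fun ψ' hψ' => by
            have := hcol ψ' hψ'
            omega) hψ hxb hxT hyb hyT g2 g3)
        · push Not at hy
          refine last_case h hr p c g e hB3 hL hxT hxw hxn ?_
          intro y hyb hyT
          by_cases hyx : y = x
          · exact Or.inl hyx
          · exact Or.inr (hy y hyb hyT hyx)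

theorem c1_aux (h : Cex G S 6 b6) (hr : (S.card - 1) % 6 = 4) : ∀ n : ℕ, ∀ x v : V,
    3 ≤ (tws G S x).card + n → P1 G S x v → Clq G (Pool.Agent.OW.cn G S v x) := by
  intro n
  induction n with
  | zero =>
    intro x v hn p
    refine c1_main h hr p ?_
    intro x' v' hlt p'
    have := c4' Nm6 h x' p'.hx p'.low
    omega
  | succ n ihn =>
    intro x v hn p
    refine c1_main h hr p ?_
    intro x' v' hlt p'
    exact ihn x' v' (by omega) p'

/-- (c1), residue 4 -/
theorem c1_r4 (h : Cex G S 6 b6) (hr : (S.card - 1) % 6 = 4) {x v : V} (p : P1 G S x v) :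
    Clq G (Pool.Agent.OW.cn G S v x) :=
  c1_aux h hr 3 x v (by omega) p

end Pool.Agent.OX22
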