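import Pool.Agent.Lib_helper22.OX.Sw

/-!
# Lemma EM: no `K`-clique of small degree outside a low clique
-/

set_option autoImplicit false
set_option linter.unusedSectionVars false
set_option linter.unusedVariables false

open scoped Classical
open Finset
open Pool.Agent.O2 (PC Cb CrOn pr ms dg nd addE)
open Pool.Agent.O3 (con hit Clq)
open Pool.Agent.OW28 (NoCE Add1)
open Pool.Agent.OW

namespace Pool.Agent.OX22

variable {V : Type} {K : ℕ} {G : SimpleGraph V} {S X T M : Finset V} {w : V}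

theorem uo_of_dg (hT : T ⊆ X) (hq : Clq G T) (hk : T.card = K) {a : V} (ha : a ∈ T)
    (hd : dg G X a ≤ K) {y y' : V} (hy : y ∈ X) (hy' : y' ∈ X) (hyT : y ∉ T) (hyT' : y' ∉ T)
    (hay : G.Adj a y) (hay' : G.Adj a y') : y = y' := by
  by_contra hne
  have h1 : insert y (insert y' (T.erase a)) ⊆ X.filter fun z => G.Adj a z := by
    intro z hz
    rw [mem_insert, mem_insert, mem_erase] at hz
    rcases hz with rfl | rfl | ⟨h2, h3⟩
    · exact mem_filter.2 ⟨hy, hay⟩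
    · exact mem_filter.2 ⟨hy', hay'⟩
    · exact mem_filter.2 ⟨hT h3, hq a ha z h3 h2.symm⟩
  have h2 := card_le_card h1
  rw [card_insert_of_notMem, card_insert_of_notMem, card_erase_of_mem ha, hk] at h2
  · have h3 : dg G X a = (X.filter fun z => G.Adj a z).card := rfl
    have h4 := card_pos.2 ⟨a, ha⟩
    omega
  · exact fun h => hyT' (mem_of_mem_erase h)
  · rw [mem_insert, not_or]
    exact ⟨hne, fun h => hyT (mem_of_mem_erase h)⟩

theorem off_bd {t : V} (ht : t ∈ X) (htb : t ∉ bd G S X) {y : V} (hy : y ∈ S)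
    (hty : G.Adj t y) : y ∈ X := by
  by_contra hyX
  exact htb (mem_filter.2 ⟨ht, y, mem_sdiff.2 ⟨hy, hyX⟩, hty⟩)

theorem dg_off_bd (hX : X ⊆ S) {t : V} (ht : t ∈ X) (htb : t ∉ bd G S X) :
    dg G S t = dg G X t := by
  unfold dg
  congr 1
  ext y
  rw [mem_filter, mem_filter]
  exact ⟨fun h1 => ⟨off_bd ht htb h1.1 h1.2, h1.2⟩, fun h1 => ⟨hX h1.1, h1.2⟩⟩

/-- a clique with small degrees in `X` is an `Em` -/
theorem mk_em (hS : CrOn G S K) (hK : 1 ≤ K) (hadd : Add1 G S K) (hX : X ⊆ S) (hT : T ⊆ X)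
    (hk : T.card = K) (hq : Clq G T) (hd : ∀ t ∈ T, dg G X t ≤ K)
    (hL : (Lp G S X T).Nonempty) :
    (∃ w, Em G S K X T w) ∧ ∀ t ∈ Lp G S X T, dg G S t = K := by
  have hlow : ∀ t ∈ Lp G S X T, dg G S t = K := by
    intro t ht
    obtain ⟨h1, h2⟩ := mem_Lp.1 ht
    apply le_antisymm
    · rw [dg_off_bd hX (hT h1) h2]
      exact hd t h1
    · exact hS.dg_ge (hX (hT h1))
  refine ⟨?_, hlow⟩
  obtain ⟨t, ht⟩ := hL
  obtain ⟨htT, htb⟩ := mem_Lp.1 ht
  have hTS : T ⊆ S := hT.trans hX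
  obtain ⟨w, hw, hwT, htw, hcn, huniq⟩ := Pool.Agent.OK5.out_nbr hTS hq hk htT (hlow t ht)
  refine ⟨w, hX, hT, hk, hq, ?_, off_bd (hT htT) htb hw htw, hwT, ?_⟩
  · intro a ha y hy y' hy' h1 h2 h3 h4
    exact uo_of_dg hT hq hk ha (hd a ha) hy hy' h1 h2 h3 h4
  · intro u hu hub
    by_cases hut : u = t
    · rw [hut]; exact ⟨htw, huniq⟩
    · have hul := hlow u (mem_Lp.2 ⟨hu, hub⟩)
      have htu : G.Adj t u := hq t htT u hu (Ne.symm hut)
      have htwin : Tw G S t u := twin_of_low hK hS hadd (hTS htT) (hlow t ht) hw htw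
        (by rw [hcn]; exact hq) (hTS hu) htu (fun e => hwT (e ▸ hu)) hul
      refine ⟨(htwin.2 w hw htw.ne' (fun e => hwT (e ▸ hu))).1 htw, ?_⟩
      intro y hy huy hyT
      exact huniq y hy ((htwin.2 y hy (fun e => hyT (e ▸ htT)) (fun e => hyT (e ▸ hu))).2 huy) hyT

/-- the rest of the boundary is the common outer neighbour -/
theorem Em.sat_w (e : Em G S K X T w) (hK : 0 < K) (hS : CrOn G S K) (hadd : Add1 G S K)
    (hXne : X ≠ S) (hL : 2 ≤ (Lp G S X T).card)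
    (hcol : ∀ ψ : V → Fin K, PC G X ψ → ((bd G S X).image ψ).card ≤ (Bp G S X T).card)
    {y : V} (hy : y ∈ bd G S X) (hyT : y ∉ T) : y = w := by
  by_contra hne
  obtain ⟨ψ, h1, h2⟩ := hadd.all hK hS e.XS hXne (mem_filter.1 hy).1 e.wX hne
  exact h2 (e.sat hL hcol h1 hy hyT)

/-- the outer neighbours of `m` in `S \ M` -/
noncomputable def on (G : SimpleGraph V) (S M : Finset V) (m : V) : Finset V :=
  (S \ M).filter fun y => G.Adj m y

theorem mem_on {m y : V} : y ∈ on G S M m ↔ (y ∈ S ∧ y ∉ M) ∧ G.Adj m y := by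
  unfold on
  rw [mem_filter, mem_sdiff]

theorem bd_eq (hM : M ⊆ S) : bd G S (S \ M) = M.biUnion (on G S M) := by
  ext y
  rw [mem_biUnion]
  constructor
  · intro hy
    obtain ⟨h1, v, hv, hyv⟩ := mem_filter.1 hy
    have hvM : v ∈ M := by
      obtain ⟨h2, h3⟩ := mem_sdiff.1 hv
      by_contra h4
      exact h3 (mem_sdiff.2 ⟨h2, h4⟩)
    exact ⟨v, hvM, mem_on.2 ⟨mem_sdiff.1 h1, hyv.symm⟩⟩
  · rintro ⟨m, hm, hy⟩
    obtain ⟨h1, h2⟩ := mem_on.1 hy
    refine mem_filter.2 ⟨mem_sdiff.2 h1, m, mem_sdiff.2 ⟨hM hm, ?_⟩, h2.symm⟩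
    intro h3
    exact (mem_sdiff.1 h3).2 hm

/-- no clique with `K + 1` vertices -/
def NoBig (G : SimpleGraph V) (S : Finset V) (K : ℕ) : Prop :=
  ∀ Q ⊆ S, Clq G Q → Q.card ≤ K

theorem noBig_of_NoCE (hK : 1 ≤ K) (h : NoCE G S K) : NoBig G S K := by
  intro Q hQ hq
  by_contra hlt
  push Not at hlt
  obtain ⟨Q', h1, h2⟩ := exists_subset_card_eq (show K + 1 ≤ Q.card by omega)
  obtain ⟨z, hz⟩ := card_pos.1 (show 0 < Q'.card by omega)
  have h3 := h (Q'.erase z) ((erase_subset _ _).trans (h1.trans hQ)) (by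
    intro a ha b hb hab
    exact hq a (h1 (mem_of_mem_erase ha)) b (h1 (mem_of_mem_erase hb)) hab) (by
    rw [card_erase_of_mem hz, h2]; rfl) z (hQ (h1 hz)) (notMem_erase z Q')
  have h4 : ((Q'.erase z).filter fun t => ¬ G.Adj z t) = ∅ := by
    rw [filter_eq_empty_iff]
    intro t ht hn
    obtain ⟨h5, h6⟩ := mem_erase.1 ht
    exact hn (hq z (h1 hz) t (h1 h6) h5.symm)
  rw [h4, card_empty] at h3
  omega

/-- part (a) -/
theorem em_a (hS : CrOn G S K) (hK : 1 ≤ K) (hadd : Add1 G S K) (hbig : NoBig G S K)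
    (hM : M ⊆ S) (hMq : Clq G M) (hMl : ∀ m ∈ M, dg G S m = K) (hMne : M.Nonempty)
    (e : Em G S K (S \ M) T w) (hL : 2 ≤ (Lp G S (S \ M) T).card)
    (hB : (Bp G S (S \ M) T).card + M.card = K + 1) : False := by
  have hXne : S \ M ≠ S := by
    intro h
    obtain ⟨m, hm⟩ := hMne
    have h1 := hM hm
    rw [← h] at h1
    exact (mem_sdiff.1 h1).2 hm
  have hcol : ∀ ψ : V → Fin K, PC G (S \ M) ψ →
      ((bd G S (S \ M)).image ψ).card ≤ (Bp G S (S \ M) T).card := by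
    intro ψ hψ
    obtain ⟨Z, hZ, hZm⟩ := low_clq_col hS hK hM hMq hMl hMne hψ
    have h1 : (bd G S (S \ M)).image ψ ⊆ Z := by
      intro i hi
      obtain ⟨y, hy, rfl⟩ := mem_image.1 hi
      rw [bd_eq hM] at hy
      obtain ⟨m, hm, hy⟩ := mem_biUnion.1 hy
      rw [← hZm m hm]
      exact mem_image_of_mem ψ hy
    have h2 := card_le_card h1
    omega
  have hBon : ∀ m ∈ M, ∀ b ∈ Bp G S (S \ M) T, G.Adj m b := by
    intro m hm b hb
    by_contra hmb
    obtain ⟨hbT, hbb⟩ := mem_Bp.1 hb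
    have hbw : b ≠ w := fun h => e.wT (h ▸ hbT)
    obtain ⟨ψ, hψ, hne⟩ := hadd.all hK hS e.XS hXne (e.TX hbT) e.wX hbw
    apply hne
    obtain ⟨Z, hZ, hZm⟩ := low_clq_col hS hK hM hMq hMl hMne hψ
    have h1 : ψ b ∈ Z := by
      rw [bd_eq hM] at hbb
      obtain ⟨m', hm', hb'⟩ := mem_biUnion.1 hbb
      rw [← hZm m' hm']
      exact mem_image_of_mem ψ hb'
    rw [← hZm m hm] at h1
    obtain ⟨y, hy, hyb⟩ := mem_image.1 h1
    have hyon : y ∈ on G S M m := hy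
    have hybd : y ∈ bd G S (S \ M) := by
      rw [bd_eq hM]
      exact mem_biUnion.2 ⟨m, hm, hyon⟩
    have hyT : y ∉ T := by
      intro hyT
      have h2 := clq_inj hψ e.TX e.q (mem_coe.2 hyT) (mem_coe.2 hbT) hyb
      exact hmb (h2 ▸ (mem_on.1 hyon).2)
    rw [← hyb, e.sat_w hK hS hadd hXne hL hcol hybd hyT]
  have hdis : Disjoint M (Bp G S (S \ M) T) := by
    rw [disjoint_left]
    intro m hm hb
    exact (mem_sdiff.1 (e.TX (mem_Bp.1 hb).1)).2 hm
  have h1 := hbig (M ∪ Bp G S (S \ M) T) (union_subset hM (by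
    intro b hb
    exact e.XS (e.TX (mem_Bp.1 hb).1))) (by
    intro a ha b hb hab
    rcases mem_union.1 ha with ha | ha
    · rcases mem_union.1 hb with hb | hb
      · exact hMq a ha b hb hab
      · exact hBon a ha b hb
    · rcases mem_union.1 hb with hb | hb
      · exact (hBon b hb a ha).symm
      · exact e.q a (mem_Bp.1 ha).1 b (mem_Bp.1 hb).1 hab)
  rw [card_union_of_disjoint hdis] at h1
  omega

end Pool.Agent.OX22
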