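import Pool.Agent.Lib_helper22.OX.EM

/-!
# Lemma EM, part (b)
-/

set_option autoImplicit false
set_option linter.unusedSectionVars false
set_option linter.unusedVariables false

open scoped Classical
open Finset
open Pool.Agent.O2 (PC Cb CrOn pr ms dg nd addE)
open Pool.Agent.O3 (con hit Clq)
open Pool.Agent.OW28 (NoCE Add1)
open Pool.Agent.OW

namespace Pool.Agent.OX22

variable {V : Type} {K : ℕ} {G : SimpleGraph V} {S X T M : Finset V} {w : V}

/-- facts if there is always exactly one boundary colour off `B` -/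
theorem Em.one_more (e : Em G S K X T w) (hL : 3 ≤ (Lp G S X T).card)
    (hcol : ∀ ψ : V → Fin K, PC G X ψ →
      ((bd G S X).image ψ).card = (Bp G S X T).card + 1)
    {ψ : V → Fin K} (hψ : PC G X ψ) :
    ∃ d, d ∉ (Bp G S X T).image ψ ∧ (bd G S X).image ψ = insert d ((Bp G S X T).image ψ) ∧
      (∀ b ∈ Bp G S X T, ψ b ≠ ψ w → ∀ y ∈ bd G S X, y ∉ T → ψ y ≠ ψ b) ∧
      (∀ b ∈ Bp G S X T, ψ b ≠ ψ w → ∃ y ∈ X, y ∉ T ∧ G.Adj b y ∧ ψ y = d) := by
  have h1 := hcol ψ hψ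
  have h2 := e.Bimg hψ
  obtain ⟨d, hd, hdB⟩ : ∃ d ∈ (bd G S X).image ψ, d ∉ (Bp G S X T).image ψ := by
    by_contra hcon
    push Not at hcon
    have := card_le_card (show (bd G S X).image ψ ⊆ (Bp G S X T).image ψ from
      fun i hi => hcon i hi)
    omega
  have hins : (bd G S X).image ψ = insert d ((Bp G S X T).image ψ) := by
    symm
    apply eq_of_subset_of_card_le
    · intro i hi
      rcases mem_insert.1 hi with rfl | hi
      · exact hd
      · exact Em.Bsub ψ hi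
    · rw [card_insert_of_notMem hdB]
      omega
  obtain ⟨z, hz, hzd⟩ := mem_image.1 hd
  have hzT : z ∉ T := fun h => hdB (mem_image.2 ⟨z, mem_Bp.2 ⟨h, hz⟩, hzd⟩)
  obtain ⟨t0, ht0, ht0d⟩ := clq_surj hψ e.TX e.q e.cT d
  have ht0L : t0 ∈ Lp G S X T := by
    refine mem_Lp.2 ⟨ht0, fun h => hdB (mem_image.2 ⟨t0, mem_Bp.2 ⟨ht0, h⟩, ht0d⟩)⟩
  have hb2 : ∀ b ∈ Bp G S X T, ψ b ≠ ψ w → ∀ y ∈ bd G S X, y ∉ T → ψ y ≠ ψ b := by
    intro b hb hbw y hy hyT hyb
    obtain ⟨hbT, hbb⟩ := mem_Bp.1 hb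
    obtain ⟨t, ht, hal⟩ := e.allow hψ hbT (L := (Lp G S X T).erase t0)
      ((erase_subset _ _).trans (filter_subset _ _)) (by
        rw [card_erase_of_mem ht0L]; omega)
    obtain ⟨htt, htL⟩ := mem_erase.1 ht
    have h3 := hcol _ (e.exch hψ hbT hbw htL hal)
    have h4 := card_le_card (e.exch_bd (ψ := ψ) hb htL)
    obtain ⟨htT, htb⟩ := mem_Lp.1 htL
    have htB : ψ t ∉ (Bp G S X T).image ψ := by
      intro hc
      obtain ⟨c, hc1, hc2⟩ := mem_image.1 hc
      obtain ⟨hcT, hcb⟩ := mem_Bp.1 hc1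
      have := clq_inj hψ e.TX e.q (mem_coe.2 hcT) (mem_coe.2 htT) hc2
      exact htb (this ▸ hcb)
    have htd : ψ t ≠ d := by
      intro h
      rw [← ht0d] at h
      exact htt (clq_inj hψ e.TX e.q (mem_coe.2 htT) (mem_coe.2 ht0) h)
    have h5 : insert (ψ t) (insert d ((Bp G S X T).image ψ)) ⊆
        (((Bp G S X T).image ψ).erase (ψ b) ∪ {ψ t}) ∪ (((bd G S X) \ T).image ψ) := by
      intro i hi
      rw [mem_union, mem_union, mem_erase, mem_singleton]
      rcases mem_insert.1 hi with rfl | hi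
      · exact Or.inl (Or.inr rfl)
      · rcases mem_insert.1 hi with rfl | hi
        · exact Or.inr (mem_image.2 ⟨z, mem_sdiff.2 ⟨hz, hzT⟩, hzd⟩)
        · by_cases h7 : i = ψ b
          · right
            rw [h7]
            exact mem_image.2 ⟨y, mem_sdiff.2 ⟨hy, hyT⟩, hyb⟩
          · exact Or.inl (Or.inl ⟨h7, hi⟩)
    have h6 := card_le_card h5
    rw [card_insert_of_notMem, card_insert_of_notMem hdB, h2] at h6
    · omega
    · rw [mem_insert, not_or]
      exact ⟨htd, htB⟩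
  refine ⟨d, hdB, hins, hb2, ?_⟩
  intro b hb hbw
  by_contra hcon
  push Not at hcon
  obtain ⟨hbT, hbb⟩ := mem_Bp.1 hb
  have hal : ∀ y ∈ X, y ∉ T → G.Adj b y → ψ y ≠ ψ t0 := by
    intro y hy hyT hby
    rw [ht0d]
    exact hcon y hy hyT hby
  have h3 := hcol _ (e.exch hψ hbT hbw ht0L hal)
  obtain ⟨ht0T, ht0b⟩ := mem_Lp.1 ht0L
  have h4 : (bd G S X).image (fun a => ψ (Equiv.swap b t0 a)) ⊆
      insert d (((Bp G S X T).image ψ).erase (ψ b)) := by
    intro i hi
    obtain ⟨a, ha, rfl⟩ := mem_image.1 hi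
    by_cases h5 : a = b
    · rw [h5, Equiv.swap_apply_left, ht0d]
      exact mem_insert_self _ _
    · have h6 : a ≠ t0 := fun h => ht0b (h ▸ ha)
      rw [Equiv.swap_apply_of_ne_of_ne h5 h6]
      have h7 : ψ a ∈ (bd G S X).image ψ := mem_image_of_mem ψ ha
      rw [hins] at h7
      rcases mem_insert.1 h7 with h7 | h7
      · rw [h7]; exact mem_insert_self _ _
      · apply mem_insert_of_mem
        refine mem_erase.2 ⟨?_, h7⟩
        by_cases haT : a ∈ T
        · intro h8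
          exact h5 (clq_inj hψ e.TX e.q (mem_coe.2 haT) (mem_coe.2 hbT) h8)
        · exact hb2 b hb hbw a ha haT
  have h5 := card_le_card h4
  have h6 := card_insert_le d (((Bp G S X T).image ψ).erase (ψ b))
  rw [card_erase_of_mem (mem_image_of_mem ψ hb), h2] at h6
  have h7 := card_pos.2 ⟨b, hb⟩
  omega

/-- every vertex of `B` sees the additional colour -/
theorem Em.one_all (e : Em G S K X T w) (hL : 3 ≤ (Lp G S X T).card)
    (hB : 3 ≤ (Bp G S X T).card)
    (hcol : ∀ ψ : V → Fin K, PC G X ψ →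
      ((bd G S X).image ψ).card = (Bp G S X T).card + 1)
    {ψ : V → Fin K} (hψ : PC G X ψ) :
    ∃ d, d ∉ (Bp G S X T).image ψ ∧ (bd G S X).image ψ = insert d ((Bp G S X T).image ψ) ∧
      (∀ b ∈ Bp G S X T, ψ b ≠ ψ w → ∀ y ∈ bd G S X, y ∉ T → ψ y ≠ ψ b) ∧
      (∀ b ∈ Bp G S X T, ∃ y ∈ X, y ∉ T ∧ G.Adj b y ∧ ψ y = d) := by
  obtain ⟨d, hdB, hins, hb2, hb3⟩ := e.one_more hL hcol hψ
  refine ⟨d, hdB, hins, hb2, ?_⟩
  intro b hb
  by_cases hbw : ψ b = ψ w
  swap
  · exact hb3 b hb hbw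
  obtain ⟨hbT, hbb⟩ := mem_Bp.1 hb
  obtain ⟨c, hc, hal⟩ := e.allow hψ hbT (L := (Bp G S X T).erase b)
    ((erase_subset _ _).trans (filter_subset _ _)) (by
      rw [card_erase_of_mem hb]; omega)
  obtain ⟨hcb, hcB⟩ := mem_erase.1 hc
  obtain ⟨hcT, hcbd⟩ := mem_Bp.1 hcB
  have hcw : ψ c ≠ ψ w := by
    rw [← hbw]
    intro h
    exact hcb (clq_inj hψ e.TX e.q (mem_coe.2 hcT) (mem_coe.2 hbT) h)
  obtain ⟨yc, hyc, hycT, hcyc, hycd⟩ := hb3 c hcB hcw
  -- the exchange of `b` and `c`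
  have hψ' : PC G X (fun a => ψ (Equiv.swap b c a)) := by
    apply perm_pc hψ e.TX e.q
    · intro a ha
      exact Equiv.swap_apply_of_ne_of_ne (fun h => ha (h ▸ hbT)) (fun h => ha (h ▸ hcT))
    · intro a ha y hy hyT hay
      by_cases h1 : a = b
      · rw [h1, Equiv.swap_apply_left]
        exact (hal y hy hyT (h1 ▸ hay)).symm
      · by_cases h2 : a = c
        · rw [h2, Equiv.swap_apply_right]
          rw [h2] at hay
          rw [e.uo c hcT y hy yc hyc hyT hycT hay hcyc, hycd]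
          intro h
          exact hdB (h ▸ mem_image_of_mem ψ hb)
        · rw [Equiv.swap_apply_of_ne_of_ne h1 h2]
          exact hψ a (e.TX ha) y hy hay
  have himg : (Bp G S X T).image (fun a => ψ (Equiv.swap b c a)) = (Bp G S X T).image ψ := by
    apply eq_of_subset_of_card_le
    · intro i hi
      obtain ⟨a, ha, rfl⟩ := mem_image.1 hi
      by_cases h1 : a = b
      · rw [h1, Equiv.swap_apply_left]; exact mem_image_of_mem ψ hcB
      · by_cases h2 : a = c
        · rw [h2, Equiv.swap_apply_right]; exact mem_image_of_mem ψ hb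
        · rw [Equiv.swap_apply_of_ne_of_ne h1 h2]; exact mem_image_of_mem ψ ha
    · rw [e.Bimg hψ', e.Bimg hψ]
  obtain ⟨d', hdB', hins', hb2', hb3'⟩ := e.one_more hL hcol hψ'
  rw [himg] at hdB' hins'
  -- the additional colours agree
  have hdd : d' = d := by
    have h1 : d ∈ (bd G S X).image ψ := by rw [hins]; exact mem_insert_self _ _
    obtain ⟨z, hz, hzd⟩ := mem_image.1 h1
    have hzT : z ∉ T := fun h => hdB (mem_image.2 ⟨z, mem_Bp.2 ⟨h, hz⟩, hzd⟩)
    have h2 : d ∈ (bd G S X).image (fun a => ψ (Equiv.swap b c a)) := by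
      refine mem_image.2 ⟨z, hz, ?_⟩
      have h3 : z ≠ b := fun h => hzT (h ▸ hbT)
      have h4 : z ≠ c := fun h => hzT (h ▸ hcT)
      rw [Equiv.swap_apply_of_ne_of_ne h3 h4, hzd]
    rw [hins'] at h2
    rcases mem_insert.1 h2 with h2 | h2
    · exact h2.symm
    · exact absurd h2 hdB
  have hw' : ψ (Equiv.swap b c w) = ψ w := by
    have h3 : w ≠ b := fun h => e.wT (h ▸ hbT)
    have h4 : w ≠ c := fun h => e.wT (h ▸ hcT)
    rw [Equiv.swap_apply_of_ne_of_ne h3 h4]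
  have hb' : ψ (Equiv.swap b c b) = ψ c := by
    rw [Equiv.swap_apply_left]
  obtain ⟨y, hy, hyT, hby, hyd⟩ := hb3' b hb (by rw [hb', hw']; exact hcw)
  refine ⟨y, hy, hyT, hby, ?_⟩
  have h3 : y ≠ b := fun h => hyT (h ▸ hbT)
  have h4 : y ≠ c := fun h => hyT (h ▸ hcT)
  rw [Equiv.swap_apply_of_ne_of_ne h3 h4] at hyd
  rw [hyd, hdd]

/-- part (b) -/
theorem em_b (hS : CrOn G S K) (hK : 1 ≤ K) (hadd : Add1 G S K) (hbig : NoBig G S K)
    (hM : M ⊆ S) (hMq : Clq G M) (hMl : ∀ m ∈ M, dg G S m = K) (hMne : M.Nonempty)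
    (e : Em G S K (S \ M) T w) (hL : 3 ≤ (Lp G S (S \ M) T).card)
    (hB3 : 3 ≤ (Bp G S (S \ M) T).card)
    (hB : (Bp G S (S \ M) T).card + M.card = K) : False := by
  have hXne : S \ M ≠ S := by
    intro h
    obtain ⟨m, hm⟩ := hMne
    have h1 := hM hm
    rw [← h] at h1
    exact (mem_sdiff.1 h1).2 hm
  have hZall : ∀ ψ : V → Fin K, PC G (S \ M) ψ → ∀ m ∈ M,
      (on G S M m).image ψ = (bd G S (S \ M)).image ψ := by
    intro ψ hψ m hm
    obtain ⟨Z, hZ, hZm⟩ := low_clq_col hS hK hM hMq hMl hMne hψ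
    have h1 : (on G S M m).image ψ = Z := hZm m hm
    rw [h1]
    apply Subset.antisymm
    · rw [← h1]
      apply image_subset_image
      intro y hy
      rw [bd_eq hM]
      exact mem_biUnion.2 ⟨m, hm, hy⟩
    · intro i hi
      obtain ⟨y, hy, rfl⟩ := mem_image.1 hi
      rw [bd_eq hM] at hy
      obtain ⟨m', hm', hy⟩ := mem_biUnion.1 hy
      rw [← hZm m' hm']
      exact mem_image_of_mem ψ hy
  have hcol : ∀ ψ : V → Fin K, PC G (S \ M) ψ →
      ((bd G S (S \ M)).image ψ).card = (Bp G S (S \ M) T).card + 1 := by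
    intro ψ hψ
    obtain ⟨Z, hZ, hZm⟩ := low_clq_col hS hK hM hMq hMl hMne hψ
    obtain ⟨m, hm⟩ := hMne
    rw [← hZall ψ hψ m hm]
    have h1 : (on G S M m).image ψ = Z := hZm m hm
    rw [h1]
    omega
  obtain ⟨b0, hb0⟩ := card_pos.1 (show 0 < (Bp G S (S \ M) T).card by omega)
  obtain ⟨ψ0, hψ0⟩ := (Pool.Agent.O2.cb_fin (by omega : 0 < K)).1 (hS.sub e.XS hXne)
  obtain ⟨d0, -, -, -, hd0⟩ := e.one_all hL hB3 hcol hψ0
  obtain ⟨τ, hτX, hτT, hb0τ, -⟩ := hd0 b0 hb0
  -- `τ` has the additional colour, and all of `B` is adjacent to `τ`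
  have hτB : ∀ b ∈ Bp G S (S \ M) T, G.Adj b τ := by
    intro b hb
    obtain ⟨τ', hτX', hτT', hbτ', -⟩ := hd0 b hb
    by_contra hn
    have hne : τ' ≠ τ := fun h => hn (h ▸ hbτ')
    obtain ⟨ψ, hψ, h1⟩ := hadd.all hK hS e.XS hXne hτX' hτX hne
    obtain ⟨d, -, -, -, hd⟩ := e.one_all hL hB3 hcol hψ
    obtain ⟨y, hy, hyT, hby, hyd⟩ := hd b hb
    obtain ⟨y', hy', hyT', hby', hyd'⟩ := hd b0 hb0
    rw [e.uo b (mem_Bp.1 hb).1 y hy τ' hτX' hyT hτT' hby hbτ'] at hyd
    rw [e.uo b0 (mem_Bp.1 hb0).1 y' hy' τ hτX hyT' hτT hby' hb0τ] at hyd'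
    exact h1 (hyd.trans hyd'.symm)
  have hτd : ∀ ψ : V → Fin K, PC G (S \ M) ψ →
      (bd G S (S \ M)).image ψ = insert (ψ τ) ((Bp G S (S \ M) T).image ψ) ∧
      (∀ b ∈ Bp G S (S \ M) T, ψ b ≠ ψ w → ∀ y ∈ bd G S (S \ M), y ∉ T → ψ y ≠ ψ b) := by
    intro ψ hψ
    obtain ⟨d, -, hins, hb2, hd⟩ := e.one_all hL hB3 hcol hψ
    obtain ⟨y', hy', hyT', hby', hyd'⟩ := hd b0 hb0
    rw [e.uo b0 (mem_Bp.1 hb0).1 y' hy' τ hτX hyT' hτT hby' hb0τ] at hyd'
    rw [hyd']
    exact ⟨hins, hb2⟩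
  -- `M` is complete to `B`
  have hMB : ∀ m ∈ M, ∀ b ∈ Bp G S (S \ M) T, G.Adj m b := by
    intro m hm b hb
    by_contra hmb
    obtain ⟨hbT, hbb⟩ := mem_Bp.1 hb
    have hbw : b ≠ w := fun h => e.wT (h ▸ hbT)
    obtain ⟨ψ, hψ, hne⟩ := hadd.all hK hS e.XS hXne (e.TX hbT) e.wX hbw
    have h1 : ψ b ∈ (on G S M m).image ψ := by
      rw [hZall ψ hψ m hm]
      exact mem_image_of_mem ψ hbb
    obtain ⟨y, hy, hyb⟩ := mem_image.1 h1
    have hybd : y ∈ bd G S (S \ M) := by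
      rw [bd_eq hM]
      exact mem_biUnion.2 ⟨m, hm, hy⟩
    have hyT : y ∉ T := by
      intro hyT
      have h2 := clq_inj hψ e.TX e.q (mem_coe.2 hyT) (mem_coe.2 hbT) hyb
      exact hmb (h2 ▸ (mem_on.1 hy).2)
    exact (hτd ψ hψ).2 b hb hne y hybd hyT hyb
  -- `M` is complete to `τ`
  have hMτ : ∀ m ∈ M, G.Adj m τ := by
    intro m hm
    by_contra hmτ
    -- the last outer neighbour
    have h1 := hcol ψ0 hψ0
    rw [← hZall ψ0 hψ0 m hm] at h1
    have h2 : ((on G S M m).image ψ0).card ≤ (on G S M m).card := card_image_le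
    obtain ⟨y, hy, hyB⟩ : ∃ y ∈ on G S M m, y ∉ Bp G S (S \ M) T := by
      by_contra hcon
      push Not at hcon
      have := card_le_card (show on G S M m ⊆ Bp G S (S \ M) T from fun y hy => hcon y hy)
      omega
    have hyX : y ∈ S \ M := mem_sdiff.2 (mem_on.1 hy).1
    have hybd : y ∈ bd G S (S \ M) := by
      rw [bd_eq hM]
      exact mem_biUnion.2 ⟨m, hm, hy⟩
    have hyT : y ∉ T := fun h => hyB (mem_Bp.2 ⟨h, hybd⟩)
    have hyτ : y ≠ τ := fun h => hmτ (h ▸ (mem_on.1 hy).2)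
    obtain ⟨ψ, hψ, hne⟩ := hadd.all hK hS e.XS hXne hyX hτX hyτ
    have h3 : ψ y ∈ (bd G S (S \ M)).image ψ := mem_image_of_mem ψ hybd
    rw [(hτd ψ hψ).1] at h3
    rcases mem_insert.1 h3 with h3 | h3
    · exact hne h3
    · obtain ⟨b, hb, hby⟩ := mem_image.1 h3
      -- both are neighbours of `m`, so the colours are different
      have hmc := hcol ψ hψ
      rw [← hZall ψ hψ m hm] at hmc
      have hcard : (on G S M m).card + M.card = K + 1 := by
        have h4 := out_card hM hMq hm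
        rw [hMl m hm] at h4
        exact h4
      have hinj : Set.InjOn ψ (on G S M m : Set V) := by
        rw [← card_image_iff]
        omega
      have hbon : b ∈ on G S M m := by
        refine mem_on.2 ⟨mem_sdiff.1 (e.TX (mem_Bp.1 hb).1), hMB m hm b hb⟩
      have h5 := hinj (mem_coe.2 hbon) (mem_coe.2 hy) hby
      exact hyT (h5 ▸ (mem_Bp.1 hb).1)
  -- the clique
  have hdis : Disjoint M (Bp G S (S \ M) T) := by
    rw [disjoint_left]
    intro m hm hb
    exact (mem_sdiff.1 (e.TX (mem_Bp.1 hb).1)).2 hm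
  have hτS : τ ∈ S := e.XS hτX
  have hτM : τ ∉ M := (mem_sdiff.1 hτX).2
  have h1 := hbig (insert τ (M ∪ Bp G S (S \ M) T)) (insert_subset hτS (union_subset hM (by
    intro b hb
    exact e.XS (e.TX (mem_Bp.1 hb).1)))) (by
    intro a ha b hb hab
    rcases mem_insert.1 ha with hat | ha
    · rcases mem_insert.1 hb with hbt | hb
      · exact absurd (hat.trans hbt.symm) hab
      · rw [hat]
        rcases mem_union.1 hb with hb | hb
        · exact (hMτ b hb).symm
        · exact (hτB b hb).symm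
    · rcases mem_insert.1 hb with hbt | hb
      · rw [hbt]
        rcases mem_union.1 ha with ha | ha
        · exact hMτ a ha
        · exact hτB a ha
      · rcases mem_union.1 ha with ha | ha
        · rcases mem_union.1 hb with hb | hb
          · exact hMq a ha b hb hab
          · exact hMB a ha b hb
        · rcases mem_union.1 hb with hb | hb
          · exact (hMB b hb a ha).symm
          · exact e.q a (mem_Bp.1 ha).1 b (mem_Bp.1 hb).1 hab)
  rw [card_insert_of_notMem (by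
    rw [mem_union, not_or]
    exact ⟨hτM, fun h => hτT (mem_Bp.1 h).1⟩), card_union_of_disjoint hdis] at h1
  omega

/-- Lemma EM for `K = 6`-like numbers: a low clique with `j` vertices, at most three low vertices
in a `K`-clique -/
theorem EM (hS : CrOn G S K) (hK : 6 ≤ K) (hadd : Add1 G S K) (hbig : NoBig G S K)
    (hlow3 : ∀ T ⊆ S, Clq G T → T.card = K → (T.filter fun t => dg G S t = K).card ≤ 3)
    (hM : M ⊆ S) (hMq : Clq G M) (hMl : ∀ m ∈ M, dg G S m = K)
    (hMc : M.card = 3 ∨ M.card = 4)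
    (hT : T ⊆ S \ M) (hk : T.card = K) (hq : Clq G T) (hd : ∀ t ∈ T, dg G (S \ M) t ≤ K) :
    False := by
  have hMne : M.Nonempty := card_pos.1 (by omega)
  have hXne : S \ M ≠ S := by
    intro h
    obtain ⟨m, hm⟩ := hMne
    have h1 := hM hm
    rw [← h] at h1
    exact (mem_sdiff.1 h1).2 hm
  have hXS : S \ M ⊆ S := sdiff_subset
  obtain ⟨ψ0, hψ0⟩ := (Pool.Agent.O2.cb_fin (by omega : 0 < K)).1 (hS.sub hXS hXne)
  obtain ⟨Z, hZ, hZm⟩ := low_clq_col hS (by omega) hM hMq hMl hMne hψ0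
  -- the size of `B`
  have hBle : (Bp G S (S \ M) T).card + M.card ≤ K + 1 := by
    have h1 : ((Bp G S (S \ M) T).image ψ0).card = (Bp G S (S \ M) T).card := by
      apply card_image_of_injOn
      intro a ha b hb hab
      exact clq_inj hψ0 hT hq (mem_coe.2 (mem_Bp.1 (mem_coe.1 ha)).1)
        (mem_coe.2 (mem_Bp.1 (mem_coe.1 hb)).1) hab
    have h2 : (Bp G S (S \ M) T).image ψ0 ⊆ Z := by
      intro i hi
      obtain ⟨b, hb, rfl⟩ := mem_image.1 hi
      have hbb := (mem_Bp.1 hb).2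
      rw [bd_eq hM] at hbb
      obtain ⟨m', hm', hb'⟩ := mem_biUnion.1 hbb
      rw [← hZm m' hm']
      exact mem_image_of_mem ψ0 hb'
    have h3 := card_le_card h2
    omega
  have hsum := Lp_Bp (G := G) (S := S) (X := S \ M) (T := T)
  have hLpos : (Lp G S (S \ M) T).Nonempty := card_pos.1 (by omega)
  obtain ⟨⟨w, e⟩, hlow⟩ := mk_em hS (by omega) hadd hXS hT hk hq hd hLpos
  have hL3 : (Lp G S (S \ M) T).card ≤ 3 := by
    refine (card_le_card ?_).trans (hlow3 T (hT.trans hXS) hq hk)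
    intro t ht
    exact mem_filter.2 ⟨(mem_Lp.1 ht).1, hlow t ht⟩
  by_cases hcase : (Bp G S (S \ M) T).card + M.card = K + 1
  · exact em_a hS (by omega) hadd hbig hM hMq hMl hMne e (by omega) hcase
  · have h3 : M.card = 3 := by omega
    exact em_b hS (by omega) hadd hbig hM hMq hMl hMne e (by omega) (by omega) (by omega)

end Pool.Agent.OX22
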