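import Pool.Agent.Lib_helper22.OX.T4

/-!
# Six colours, residue 4: the number of boundary colours
-/

set_option autoImplicit false
set_option linter.unusedSectionVars false
set_option linter.unusedVariables false
set_option synthInstance.maxSize 2000

open scoped Classical
open Finset
open Pool.Agent.O2 (PC Cb CrOn pr ms dg nd addE)
open Pool.Agent.O3 (con hit Clq Non)
open Pool.Agent.OW28 (NoCE Add1)
open Pool.Agent.OW
open Pool.Agent.OW.S5 (PS Tgt)
open Pool.Agent.OX25 (T6 tgap6 small_card)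
open Pool.Agent.OX28
open Pool.Agent.OK5 (bd_gain)

namespace Pool.Agent.OX22

variable {V : Type} {G : SimpleGraph V} {S X T M R W : Finset V} {w : V}

/-- a step for every colouring -/
theorem mkstep (h : Cex G S 6 b6) (hX : X ⊆ S) (hc : 6 + 1 ≤ X.card) {ψ : V → Fin 6}
    (hψ : PC G X ψ) : ∃ (A : Finset V) (Z : Finset (Fin 6)), Step G S X ψ A Z ∧
      Yy G 6 b6 X = Yy G 6 b6 (X ∪ A) - Yy (con G X ψ) 6 b6 (A.disjSum Z) +
        cst 6 b6 Z.card (X.card - 1) A.card + 2 * gain G X ψ A Z ∧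
      Yy (con G X ψ) 6 b6 (A.disjSum Z) ≤ 0 ∧ 0 ≤ gain G X ψ A Z ∧
      1 ≤ A.card ∧ (X ∪ A).card - 1 = X.card - 1 + A.card ∧ 6 + 1 ≤ (X ∪ A).card := by
  obtain ⟨A, Z, hst⟩ := step_exists (by omega) h.cr hX (card_pos.1 (by omega)) hψ
  have h1 := hst.Yy_eq b6
  have hA1 : 1 ≤ A.card := card_pos.2 hst.neA
  have hcu := hst.card_union
  refine ⟨A, Z, hst, by linarith, (hst.Yy_le h.ih hc).1, hst.gain_nonneg, hA1, by omega, by omega⟩

/-- a last step with a loss of two: no -/
theorem no_gain_two (h : Cex G S 6 b6) (hr : (S.card - 1) % 6 + 2 ≤ 6) {A : Finset V}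
    {ψ : V → Fin 6} {Z : Finset (Fin 6)} (hst : Step G S X ψ A Z) (hXc : 6 + 1 ≤ X.card)
    (hU : X ∪ A = S) (hZ : Z.card = 1) (hg : gain G X ψ A Z ≤ 2)
    (hres : 6 ∣ (A.disjSum Z).card - 1)
    (hQ : Yy (con G X ψ) 6 b6 (A.disjSum Z) = 0) : False := by
  obtain ⟨T, h1, h2, h3, h4⟩ := step_clq h hst hXc hZ hres hQ
  have h5 := low_le Nm6 h hr (h1.trans hst.subA) h3 h2
  -- the vertices of `T` which are not low
  have h6 : ((T.filter fun t => ¬ dg G S t = 6).card : ℤ) ≤ gain G X ψ A Z := by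
    have e1 : ((T.filter fun t => ¬ dg G S t = 6).card : ℤ) =
        ∑ t ∈ T.filter (fun t => ¬ dg G S t = 6), (1 : ℤ) := by
      rw [sum_const, nsmul_eq_mul, mul_one]
    rw [e1]
    have e2 : ∑ t ∈ T.filter (fun t => ¬ dg G S t = 6), (1 : ℤ) ≤
        ∑ t ∈ T.filter (fun t => ¬ dg G S t = 6),
          ((dg G X t : ℤ) - (hit G X ψ t ∩ Z).card) := by
      apply sum_le_sum
      intro t ht
      obtain ⟨ht1, ht2⟩ := mem_filter.1 ht
      have h7 := gain_term G X ψ Z t
      have h8 := Pool.Agent.OW63.Step.dg_eq hst hU (h1 ht1)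
      rw [h4 t ht1] at h8
      have h9 : (dg G S t : ℤ) ≠ 6 := by
        intro e
        exact ht2 (by exact_mod_cast e)
      push_cast at h8
      omega
    refine e2.trans ?_
    unfold gain
    apply sum_le_sum_of_subset_of_nonneg
    · exact (filter_subset _ _).trans h1
    · intro t _ _
      exact gain_term G X ψ Z t
  have h7 : (T.filter fun t => dg G S t = 6).card + (T.filter fun t => ¬ dg G S t = 6).card
      = 6 := by
    rw [card_filter_add_card_filter_not, h2]
  omega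

/-- a last step with a loss of at most one and a tight piece of residue `0`: a clique -/
theorem last_clq (h : Cex G S 6 b6) (hr : (S.card - 1) % 6 + 2 ≤ 6) {A : Finset V}
    {ψ : V → Fin 6} {Z : Finset (Fin 6)} (hst : Step G S X ψ A Z) (hXc : 6 + 1 ≤ X.card)
    (hU : X ∪ A = S) (hg : gain G X ψ A Z ≤ 1) (hres : 6 ∣ (A.disjSum Z).card - 1)
    (hQ : Yy (con G X ψ) 6 b6 (A.disjSum Z) = 0) :
    A.card + Z.card = 6 + 1 ∧ Clq G A ∧ (∃ v0, ∀ v ∈ A, v ≠ v0 → dg G S v = 6) ∧
      (∀ v ∈ A, dg G S v ≤ 6 + 1) ∧ (∀ v ∈ A, Z ⊆ hit G X ψ v) := by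
  rcases flex_one T6_6 h.ih (fun X h1 h2 h3 => by linarith [Y_four Nm6 h X h1 h2 h3]) hst
    (card_pos.1 (by omega)) (hst.Q_lt hXc) hU hg hres hQ with h1 | ⟨Q, g1, g2, g3, g4⟩
  · exact h1
  · exfalso
    have g5 := high_ge Nm6 h hr (g1.trans hst.subA) g3 g2
    omega

/-- (2.1) -/
theorem k0 (h : Cex G S 6 b6) (hr : (S.card - 1) % 6 = 4) (hX : X ⊆ S)
    (hc : 6 + 1 ≤ X.card) (hf : 5 ≤ (S \ X).card) (hp : (X.card - 1) % 6 = 0)
    (hY : Yy G 6 b6 X ≤ 6) {ψ : V → Fin 6} (hψ : PC G X ψ) :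
    ((bd G S X).image ψ).card ≤ 3 := by
  obtain ⟨A, Z, hst, hYe, hQ, hg, hA1, e1, hUc⟩ := mkstep h hX hc hψ
  by_cases hU : X ∪ A = S
  · have hN : (X.card - 1 + A.card) % 6 = 4 := by rw [← e1, hU]; exact hr
    have h1 := (by_res (P := fun p r s c => ¬ (p = 0 ∧ r = 4) ∨ ((s = 1 ∧ c = 2) ∨
      (s = 2 ∧ c = 4) ∨ (s = 3 ∧ c = 2) ∨ 6 ≤ c)) (X.card - 1) A.card Z.card hst.Z_pos hst.Z_le
      hA1 (by decide)).resolve_left (fun hn => hn ⟨hp, hN⟩)
    have hY2 := Y_two h
    rw [hU] at hYe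
    have h4 := bd_gain hst hU
    have h5 : (((bd G S X).image ψ).card : ℤ) ≤ 3 := by
      rcases h1 with ⟨h1, h2⟩ | ⟨h1, h2⟩ | ⟨h1, h2⟩ | h2
      · rw [h1] at h4
        push_cast at h4
        linarith
      · rw [h1] at h4
        push_cast at h4
        linarith
      · by_cases hg0 : gain G X ψ A Z ≤ 0
        · rw [h1] at h4
          push_cast at h4
          linarith
        · exfalso
          push Not at hg0
          have hg1 : gain G X ψ A Z = 1 := by omega
          have hAS := (hst.final_card hU).1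
          have h6 := last_clq h (by omega) hst hc hU (by omega) (by
            rw [hst.card_Q, h1]
            omega) (by omega)
          rw [← hAS] at hf
          omega
      · exfalso
        linarith
    exact_mod_cast h5
  · exfalso
    have h1 := (by_res (P := fun p r s c => ¬ (p = 0) ∨ ((s = 1 ∧ r = 0 ∧ c = 2) ∨
      6 < c + q4 r)) (X.card - 1) A.card Z.card hst.Z_pos hst.Z_le
      hA1 (by decide)).resolve_left (fun hn => hn hp)
    have h2 := tab_q4 h hr hst.sub_union hU hUc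
    rw [e1] at h2
    rcases h1 with ⟨h3, h4, h5⟩ | h3
    · have h6 := Y_four Nm6 h _ hst.sub_union hU hUc
      refine step_em h (Or.inr hr) hst hc h3 (by linarith) ?_ (by linarith) hU (by linarith)
      rw [hst.card_Q, h3]
      omega
    · linarith

/-- (2.2) -/
theorem k5 (h : Cex G S 6 b6) (hr : (S.card - 1) % 6 = 4) (hX : X ⊆ S)
    (hc : 6 + 1 ≤ X.card) (hf : (S \ X).card ≠ 5) (hp : (X.card - 1) % 6 = 5)
    (hY : Yy G 6 b6 X ≤ 8) {ψ : V → Fin 6} (hψ : PC G X ψ) :
    ((bd G S X).image ψ).card ≤ 2 := by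
  obtain ⟨A, Z, hst, hYe, hQ, hg, hA1, e1, hUc⟩ := mkstep h hX hc hψ
  by_cases hU : X ∪ A = S
  · have hN : (X.card - 1 + A.card) % 6 = 4 := by rw [← e1, hU]; exact hr
    have h1 := (by_res (P := fun p r s c => ¬ (p = 5 ∧ r = 4) ∨ ((s = 1 ∧ c = 4) ∨
      (s = 2 ∧ c = 4) ∨ 8 ≤ c)) (X.card - 1) A.card Z.card hst.Z_pos hst.Z_le
      hA1 (by decide)).resolve_left (fun hn => hn ⟨hp, hN⟩)
    have hY2 := Y_two h
    rw [hU] at hYe
    have h4 := bd_gain hst hU
    have h5 : (((bd G S X).image ψ).card : ℤ) ≤ 2 := by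
      rcases h1 with ⟨h1, h2⟩ | ⟨h1, h2⟩ | h2
      · rw [h1] at h4
        push_cast at h4
        linarith
      · by_cases hg0 : gain G X ψ A Z ≤ 0
        · rw [h1] at h4
          push_cast at h4
          linarith
        · exfalso
          push Not at hg0
          have hg1 : gain G X ψ A Z = 1 := by omega
          have hAS := (hst.final_card hU).1
          have h6 := last_clq h (by omega) hst hc hU (by omega) (by
            rw [hst.card_Q, h1]
            omega) (by omega)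
          rw [← hAS] at hf
          omega
      · exfalso
        linarith
    exact_mod_cast h5
  · exfalso
    have h1 := (by_res (P := fun p r s c => ¬ (p = 5) ∨
      8 < c + q4 r) (X.card - 1) A.card Z.card hst.Z_pos hst.Z_le
      hA1 (by decide)).resolve_left (fun hn => hn hp)
    have h2 := tab_q4 h hr hst.sub_union hU hUc
    rw [e1] at h2
    linarith

/-- (4.1) -/
theorem k4 (h : Cex G S 6 b6) (hr : (S.card - 1) % 6 = 4) (hX : X ⊆ S)
    (hc : 6 + 1 ≤ X.card) (hp : (X.card - 1) % 6 = 4)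
    (hY : Yy G 6 b6 X ≤ 8) {ψ : V → Fin 6} (hψ : PC G X ψ) :
    ((bd G S X).image ψ).card ≤ 2 := by
  obtain ⟨A, Z, hst, hYe, hQ, hg, hA1, e1, hUc⟩ := mkstep h hX hc hψ
  by_cases hU : X ∪ A = S
  · have hN : (X.card - 1 + A.card) % 6 = 4 := by rw [← e1, hU]; exact hr
    have h1 := (by_res (P := fun p r s c => ¬ (p = 4 ∧ r = 4) ∨ ((s = 1 ∧ c = 2) ∨ 8 ≤ c))
      (X.card - 1) A.card Z.card hst.Z_pos hst.Z_le
      hA1 (by decide)).resolve_left (fun hn => hn ⟨hp, hN⟩)
    have hY2 := Y_two h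
    rw [hU] at hYe
    have h4 := bd_gain hst hU
    have h5 : (((bd G S X).image ψ).card : ℤ) ≤ 2 := by
      rcases h1 with ⟨h1, h2⟩ | h2
      · by_cases hg1 : gain G X ψ A Z ≤ 1
        · rw [h1] at h4
          push_cast at h4
          linarith
        · exfalso
          push Not at hg1
          refine no_gain_two h (by omega) hst hc hU h1 (by linarith) (by
            rw [hst.card_Q, h1]
            omega) (by omega)
      · exfalso
        linarith
    exact_mod_cast h5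
  · exfalso
    have h1 := (by_res (P := fun p r s c => ¬ (p = 4) ∨
      8 < c + q4 r) (X.card - 1) A.card Z.card hst.Z_pos hst.Z_le
      hA1 (by decide)).resolve_left (fun hn => hn hp)
    have h2 := tab_q4 h hr hst.sub_union hU hUc
    rw [e1] at h2
    linarith

end Pool.Agent.OX22
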