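import Pool.Agent.Lib_helper22.OX.NS4

/-!
# Six colours, residue 4: cliques of small degree and the boundary
-/

set_option autoImplicit false
set_option linter.unusedSectionVars false
set_option linter.unusedVariables false
set_option synthInstance.maxSize 2000

open scoped Classical
open Finset
open Pool.Agent.O2 (PC Cb CrOn pr ms dg nd addE)
open Pool.Agent.O3 (con hit Clq Non)
open Pool.Agent.OW28 (NoCE Add1)
open Pool.Agent.OW
open Pool.Agent.OX28
open Pool.Agent.OK5 (bd_gain)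

namespace Pool.Agent.OX22

variable {V : Type} {G : SimpleGraph V} {S X T M R W : Finset V} {w : V}

/-- a `6`-clique of small degree: `Em`, at most three low vertices off the boundary -/
theorem mk6 (h : Cex G S 6 b6) (hr : (S.card - 1) % 6 + 2 ≤ 6) (hX : X ⊆ S) (hne : X ≠ S)
    (hT : T ⊆ X) (hk : T.card = 6) (hq : Clq G T) (hd : ∀ t ∈ T, dg G X t ≤ 6) {n : ℕ}
    (hn : n ≤ 5) (hcol : ∀ ψ : V → Fin 6, PC G X ψ → ((bd G S X).image ψ).card ≤ n) :
    (∃ w, Em G S 6 X T w) ∧ (Lp G S X T).card ≤ 3 ∧ (Bp G S X T).card ≤ n := by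
  obtain ⟨ψ0, hψ0⟩ := (Pool.Agent.O2.cb_fin (by omega : 0 < 6)).1 (h.cr.sub hX hne)
  have hBle : (Bp G S X T).card ≤ n := by
    have h1 : ((Bp G S X T).image ψ0).card = (Bp G S X T).card := by
      apply card_image_of_injOn
      intro a ha b hb hab
      exact clq_inj hψ0 hT hq (mem_coe.2 (mem_Bp.1 (mem_coe.1 ha)).1)
        (mem_coe.2 (mem_Bp.1 (mem_coe.1 hb)).1) hab
    rw [← h1]
    refine (card_le_card ?_).trans (hcol ψ0 hψ0)
    apply image_subset_image
    intro a ha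
    exact (mem_Bp.1 ha).2
  have hsum := Lp_Bp (G := G) (S := S) (X := X) (T := T)
  rw [hk] at hsum
  obtain ⟨he, hlow⟩ := mk_em h.cr (by omega) (add_one Nm6 h) hX hT hk hq hd
    (card_pos.1 (by omega))
  refine ⟨he, ?_, hBle⟩
  have h1 := low_le Nm6 h hr (hT.trans hX) hq hk
  have h2 : (Lp G S X T).card ≤ (T.filter fun t => dg G S t = 6).card := by
    apply card_le_card
    intro t ht
    exact mem_filter.2 ⟨(mem_Lp.1 ht).1, hlow t ht⟩
  omega

/-- at most three boundary colours -/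
theorem em_three (h : Cex G S 6 b6) (hr : (S.card - 1) % 6 + 2 ≤ 6) (hX : X ⊆ S) (hne : X ≠ S)
    (hT : T ⊆ X) (hk : T.card = 6) (hq : Clq G T) (hd : ∀ t ∈ T, dg G X t ≤ 6)
    (hcol : ∀ ψ : V → Fin 6, PC G X ψ → ((bd G S X).image ψ).card ≤ 3) :
    ∃ w, Em G S 6 X T w ∧ (Bp G S X T).card = 3 ∧ ∀ y ∈ bd G S X, y ∉ T → y = w := by
  obtain ⟨⟨w, e⟩, h1, h2⟩ := mk6 h hr hX hne hT hk hq hd (n := 3) (by omega) hcol
  have hsum := Lp_Bp (G := G) (S := S) (X := X) (T := T)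
  rw [hk] at hsum
  refine ⟨w, e, by omega, ?_⟩
  intro y hy hyT
  refine e.sat_w (by omega) h.cr (add_one Nm6 h) hne (by omega) ?_ hy hyT
  intro ψ hψ
  have := hcol ψ hψ
  omega

theorem em_three_two (h : Cex G S 6 b6) (hr : (S.card - 1) % 6 + 2 ≤ 6) (hX : X ⊆ S)
    (hne : X ≠ S) (hT : T ⊆ X) (hk : T.card = 6) (hq : Clq G T) (hd : ∀ t ∈ T, dg G X t ≤ 6)
    (hcol : ∀ ψ : V → Fin 6, PC G X ψ → ((bd G S X).image ψ).card ≤ 3) {y z : V}
    (hy : y ∈ bd G S X) (hz : z ∈ bd G S X) (hyT : y ∉ T) (hzT : z ∉ T) : y = z := by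
  obtain ⟨w, -, -, h1⟩ := em_three h hr hX hne hT hk hq hd hcol
  rw [h1 y hy hyT, h1 z hz hzT]

theorem em_three_card (h : Cex G S 6 b6) (hr : (S.card - 1) % 6 + 2 ≤ 6) (hX : X ⊆ S)
    (hne : X ≠ S) (hT : T ⊆ X) (hk : T.card = 6) (hq : Clq G T) (hd : ∀ t ∈ T, dg G X t ≤ 6)
    (hcol : ∀ ψ : V → Fin 6, PC G X ψ → ((bd G S X).image ψ).card ≤ 3) :
    (bd G S X).card ≤ 4 := by
  obtain ⟨w, e, h1, h2⟩ := em_three h hr hX hne hT hk hq hd hcol
  have h3 : bd G S X ⊆ insert w (Bp G S X T) := by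
    intro y hy
    by_cases hyT : y ∈ T
    · exact mem_insert_of_mem (mem_Bp.2 ⟨hyT, hy⟩)
    · rw [h2 y hy hyT]
      exact mem_insert_self _ _
  have h4 := (card_le_card h3).trans (card_insert_le _ _)
  omega

/-- (4.4), the number of boundary colours -/
theorem k5b (h : Cex G S 6 b6) (hr : (S.card - 1) % 6 = 4) (hX : X ⊆ S)
    (hc : 6 + 1 ≤ X.card) (hp : (X.card - 1) % 6 = 5)
    (hY : Yy G 6 b6 X ≤ 10) {ψ : V → Fin 6} (hψ : PC G X ψ) :
    ((bd G S X).image ψ).card ≤ 4 := by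
  obtain ⟨A, Z, hst, hYe, hQ, hg, hA1, e1, hUc⟩ := mkstep h hX hc hψ
  by_cases hU : X ∪ A = S
  · have hN : (X.card - 1 + A.card) % 6 = 4 := by rw [← e1, hU]; exact hr
    have h1 := (by_res (P := fun p r s c => ¬ (p = 5 ∧ r = 4) ∨ ((s ≤ 2 ∧ c = 4) ∨ 10 ≤ c))
      (X.card - 1) A.card Z.card hst.Z_pos hst.Z_le
      hA1 (by decide)).resolve_left (fun hn => hn ⟨hp, hN⟩)
    have hY2 := Y_two h
    rw [hU] at hYe
    have h4 := bd_gain hst hU
    have h5 : (((bd G S X).image ψ).card : ℤ) ≤ 4 := by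
      rcases h1 with ⟨h1, h2⟩ | h2
      · have h6 : (Z.card : ℤ) ≤ 2 := by exact_mod_cast h1
        linarith
      · exfalso
        linarith
    exact_mod_cast h5
  · exfalso
    have h1 := (by_res (P := fun p r s c => ¬ (p = 5) ∨ ((s = 1 ∧ r = 5 ∧ c = 2) ∨
      10 < c + q4 r)) (X.card - 1) A.card Z.card hst.Z_pos hst.Z_le
      hA1 (by decide)).resolve_left (fun hn => hn hp)
    have h2 := tab_q4 h hr hst.sub_union hU hUc
    rcases h1 with ⟨h3, h4, h5⟩ | h3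
    · rw [← e1] at h4
      rw [h4] at h2
      have e8 : q4 5 = 8 := by decide
      rw [e8] at h2
      have hQ0 : Yy (con G X ψ) 6 b6 (A.disjSum Z) = 0 := by linarith
      have hg0 : gain G X ψ A Z = 0 := by linarith
      obtain ⟨T, g1, g2, g3, g4'⟩ := step_clq h hst hc h3 (by
        rw [hst.card_Q, h3]
        omega) hQ0
      have g4 : ∀ t ∈ T, dg G (X ∪ A) t ≤ 6 := by
        intro t ht
        rw [← hst.gain_zero_dg hg0 (g1 ht)]
        exact (g4' t ht).le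
      have gT : T ⊆ X ∪ A := g1.trans subset_union_right
      have hUY : Yy G 6 b6 (X ∪ A) ≤ 8 := by linarith
      by_cases h5' : (S \ (X ∪ A)).card = 5
      · have hcol : ∀ ψ : V → Fin 6, PC G (X ∪ A) ψ →
            ((bd G S (X ∪ A)).image ψ).card ≤ 3 := fun ψ' hψ' =>
          (ns_step h hr hst.sub_union hUc h5' h4 hUY hψ').2
        have h6 := em_three_card h (by omega) hst.sub_union hU gT g2 g3 g4 hcol
        obtain ⟨-, -, -, -, -, -, -, -, -, -, -, -, -, h7⟩ :=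
          ns4 h hr hst.sub_union hUc h5' h4 hUY
        omega
      · have hcol : ∀ ψ : V → Fin 6, PC G (X ∪ A) ψ →
            ((bd G S (X ∪ A)).image ψ).card ≤ 2 := fun ψ' hψ' =>
          k5 h hr hst.sub_union hUc h5' h4 hUY hψ'
        obtain ⟨w, -, h6, -⟩ := em_three h (by omega) hst.sub_union hU gT g2 g3 g4
          (fun ψ' hψ' => (hcol ψ' hψ').trans (by omega))
        obtain ⟨-, -, h7⟩ := mk6 h (by omega) hst.sub_union hU gT g2 g3 g4 (n := 2) (by omega) hcol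
        omega
    · rw [e1] at h2
      linarith

end Pool.Agent.OX22
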