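import Pool.Agent.Lib_helper22.OX.K4

/-!
# Six colours, residue 4: the exceptional set with five vertices outside
-/

set_option autoImplicit false
set_option linter.unusedSectionVars false
set_option linter.unusedVariables false
set_option synthInstance.maxSize 2000

open scoped Classical
open Finset
open Pool.Agent.O2 (PC Cb CrOn pr ms dg nd addE)
open Pool.Agent.O3 (con hit Clq Non)
open Pool.Agent.OW28 (NoCE Add1)
open Pool.Agent.OW
open Pool.Agent.OW.S5 (PS Tgt)
open Pool.Agent.OX25 (T6 tgap6 small_card)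
open Pool.Agent.OX28
open Pool.Agent.OK5 (bd_gain)

namespace Pool.Agent.OX22

variable {V : Type} {G : SimpleGraph V} {S X T M R W : Finset V} {w : V}

/-- the only step -/
theorem ns_step (h : Cex G S 6 b6) (hr : (S.card - 1) % 6 = 4) (hX : X ⊆ S)
    (hc : 6 + 1 ≤ X.card) (hf : (S \ X).card = 5) (hp : (X.card - 1) % 6 = 5)
    (hY : Yy G 6 b6 X ≤ 8) {ψ : V → Fin 6} (hψ : PC G X ψ) :
    (∃ Z : Finset (Fin 6), Z.card = 2 ∧ Clq G (S \ X) ∧
      (∃ v0, ∀ v ∈ S \ X, v ≠ v0 → dg G S v = 6) ∧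
      (∀ v ∈ S \ X, dg G S v ≤ 6 + 1) ∧ (∀ v ∈ S \ X, Z ⊆ hit G X ψ v)) ∧
    ((bd G S X).image ψ).card ≤ 3 := by
  obtain ⟨A, Z, hst, hYe, hQ, hg, hA1, e1, hUc⟩ := mkstep h hX hc hψ
  by_cases hU : X ∪ A = S
  · have hN : (X.card - 1 + A.card) % 6 = 4 := by rw [← e1, hU]; exact hr
    have hAS := (hst.final_card hU).1
    have hA5 : A.card = 5 := by rw [hAS]; exact hf
    have h1 := (by_res (P := fun p r s c => ¬ (p = 5 ∧ r = 4) ∨ ((s = 1 ∧ c = 4) ∨
      (s = 2 ∧ c = 4) ∨ 8 ≤ c)) (X.card - 1) A.card Z.card hst.Z_pos hst.Z_le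
      hA1 (by decide)).resolve_left (fun hn => hn ⟨hp, hN⟩)
    have hY2 := Y_two h
    rw [hU] at hYe
    have h4 := bd_gain hst hU
    have hQc := hst.cr.card_ge
    rw [hst.card_Q] at hQc
    rcases h1 with ⟨h1, h2⟩ | ⟨h1, h2⟩ | h2
    · exfalso
      omega
    · have hg1 : gain G X ψ A Z ≤ 1 := by omega
      by_cases hQ0 : Yy (con G X ψ) 6 b6 (A.disjSum Z) = 0
      · have h6 := last_clq h (by omega) hst hc hU (by omega) (by
            rw [hst.card_Q, h1]
            omega) hQ0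
        rw [hAS] at h6
        refine ⟨⟨Z, h1, h6.2⟩, ?_⟩
        have h5 : (((bd G S X).image ψ).card : ℤ) ≤ 3 := by
          rw [h1] at h4
          push_cast at h4
          linarith
        exact_mod_cast h5
      · -- the gain is zero and the complement is a low clique
        exfalso
        have hg0 : gain G X ψ A Z = 0 := by omega
        have hq := Pool.Agent.OW.S5.clq_of_card hst.cr (by rw [hst.card_Q]; omega)
        have hcA : Clq G A := by
          intro a ha c hc' hac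
          exact hq (Sum.inl a) (inl_mem_disjSum.2 ha) (Sum.inl c) (inl_mem_disjSum.2 hc')
            (fun e => hac (Sum.inl_injective e))
        refine no_low5 h (Or.inr hr) hst.subA hcA ?_ hA5.ge
        intro v hv
        rw [← (hst.gain_zero_final hg0 hU).1 v hv]
        have h2 := Pool.Agent.OW.S5.dg_of_clq hq (inl_mem_disjSum.2 hv)
        rw [hst.card_Q] at h2
        omega
    · exfalso
      linarith
  · exfalso
    have h1 := (by_res (P := fun p r s c => ¬ (p = 5) ∨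
      8 < c + q4 r) (X.card - 1) A.card Z.card hst.Z_pos hst.Z_le
      hA1 (by decide)).resolve_left (fun hn => hn hp)
    have h2 := tab_q4 h hr hst.sub_union hU hUc
    rw [e1] at h2
    linarith

/-- degrees of the vertices of a clique `A = S \ X` -/
theorem dg_split (hX : X ⊆ S) (hq : Clq G (S \ X)) {a : V} (ha : a ∈ S \ X) :
    (X.filter fun y => G.Adj a y).card + (S \ X).card = dg G S a + 1 := by
  have h1 := out_card (S := S) (M := S \ X) sdiff_subset hq ha
  rw [Finset.sdiff_sdiff_eq_self hX] at h1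
  exact h1

theorem ns4 (h : Cex G S 6 b6) (hr : (S.card - 1) % 6 = 4) (hX : X ⊆ S)
    (hc : 6 + 1 ≤ X.card) (hf : (S \ X).card = 5) (hp : (X.card - 1) % 6 = 5)
    (hY : Yy G 6 b6 X ≤ 8) : ∃ a5 ∈ S \ X, ∃ al ∈ X, ∃ be ∈ X, al ≠ be ∧ Clq G (S \ X) ∧
      dg G S a5 = 7 ∧ (∀ a ∈ S \ X, a ≠ a5 → dg G S a = 6 ∧
        ∀ y ∈ X, (G.Adj a y ↔ y = al ∨ y = be)) ∧
      (X.filter fun y => G.Adj a5 y).card = 3 ∧ ¬ G.Adj a5 al ∧ ¬ G.Adj a5 be ∧
      5 ≤ (bd G S X).card := by
  have hne : X ≠ S := by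
    rintro rfl
    have h0 : (X \ X).card = 0 := by simp
    omega
  obtain ⟨ψ0, hψ0⟩ := (Pool.Agent.O2.cb_fin (by omega : 0 < 6)).1 (h.cr.sub hX hne)
  obtain ⟨⟨Z0, hZ0, hq, ⟨v0, hv0⟩, hd7, -⟩, -⟩ := ns_step h hr hX hc hf hp hY hψ0
  -- the exceptional vertex
  have hv0A : v0 ∈ S \ X ∧ dg G S v0 = 7 := by
    by_contra hcon
    refine no_low5 h (Or.inr hr) sdiff_subset hq ?_ hf.ge
    intro m hm
    by_cases hmv : m = v0
    · rw [hmv] at hm ⊢
      have h1 := hd7 v0 hm
      have h2 := h.cr.dg_ge (mem_sdiff.1 hm).1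
      have h3 : dg G S v0 ≠ 7 := fun e => hcon ⟨hm, e⟩
      omega
    · exact hv0 m hm hmv
  obtain ⟨hvA, hv7⟩ := hv0A
  have hN5 : (X.filter fun y => G.Adj v0 y).card = 3 := by
    have := dg_split hX hq hvA
    omega
  have hN2 : ∀ a ∈ S \ X, a ≠ v0 → (X.filter fun y => G.Adj a y).card = 2 := by
    intro a ha hav
    have h1 := dg_split hX hq ha
    have h2 := hv0 a ha hav
    omega
  -- the low clique
  have hMS : (S \ X).erase v0 ⊆ S := (erase_subset _ _).trans sdiff_subset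
  have hMq : Clq G ((S \ X).erase v0) := fun a ha c hc hac =>
    hq a (mem_of_mem_erase ha) c (mem_of_mem_erase hc) hac
  have hMl : ∀ m ∈ (S \ X).erase v0, dg G S m = 6 := fun m hm =>
    hv0 m (mem_erase.1 hm).2 (mem_erase.1 hm).1
  have hMc : ((S \ X).erase v0).card = 4 := by
    rw [card_erase_of_mem hvA, hf]
  obtain ⟨m1, hm1⟩ := card_pos.1 (show 0 < ((S \ X).erase v0).card by omega)
  have hm1' := mem_erase.1 hm1
  obtain ⟨al, be, halbe, hN1⟩ := card_eq_two.1 (hN2 m1 hm1'.2 hm1'.1)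
  have halX : al ∈ X ∧ G.Adj m1 al := mem_filter.1 (by rw [hN1]; simp)
  have hbeX : be ∈ X ∧ G.Adj m1 be := mem_filter.1 (by rw [hN1]; simp)
  have hsame : ∀ a ∈ S \ X, a ≠ v0 → (X.filter fun y => G.Adj m1 y) ⊆
      X.filter fun y => G.Adj a y := by
    intro a ha hav y hy
    obtain ⟨hyX, hy1⟩ := mem_filter.1 hy
    have haM : a ∈ (S \ X).erase v0 := mem_erase.2 ⟨hav, ha⟩
    have hyM : y ∉ (S \ X).erase v0 := fun e => (mem_sdiff.1 (mem_of_mem_erase e)).2 hyX
    have h1 := low_on h (Or.inr hr) hMS hMq hMl hm1 haM (by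
      have h2 : on G S ((S \ X).erase v0) a \ on G S ((S \ X).erase v0) m1 ⊆
          X.filter fun y => G.Adj a y := by
        intro z hz
        obtain ⟨h3, h4⟩ := mem_sdiff.1 hz
        obtain ⟨⟨h5, h6⟩, h7⟩ := mem_on.1 h3
        refine mem_filter.2 ⟨?_, h7⟩
        by_contra hzX
        have hzv : z = v0 := by
          by_contra hzv
          exact h6 (mem_erase.2 ⟨hzv, mem_sdiff.2 ⟨h5, hzX⟩⟩)
        apply h4
        rw [hzv]
        exact mem_on.2 ⟨⟨(mem_sdiff.1 hvA).1, notMem_erase v0 _⟩,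
          hq m1 hm1'.2 v0 hvA hm1'.1⟩
      have h3 := card_le_card h2
      rw [hN2 a ha hav] at h3
      exact h3)
    have h2 := h1 (mem_on.2 ⟨⟨hX hyX, hyM⟩, hy1⟩)
    exact mem_filter.2 ⟨hyX, (mem_on.1 h2).2⟩
  have hadj : ∀ a ∈ S \ X, a ≠ v0 → dg G S a = 6 ∧ ∀ y ∈ X, (G.Adj a y ↔ y = al ∨ y = be) := by
    intro a ha hav
    refine ⟨hv0 a ha hav, fun y hy => ?_⟩
    have h1 : (X.filter fun y => G.Adj m1 y) = X.filter fun y => G.Adj a y :=
      eq_of_subset_of_card_le (hsame a ha hav) (by rw [hN2 a ha hav, hN2 m1 hm1'.2 hm1'.1])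
    have h2 : y ∈ (X.filter fun y => G.Adj a y) ↔ y ∈ ({al, be} : Finset V) := by
      rw [← h1, hN1]
    rw [mem_filter, mem_insert, mem_singleton] at h2
    exact ⟨fun h3 => h2.1 ⟨hy, h3⟩, fun h3 => (h2.2 h3).2⟩
  -- colours
  have hcol : ∀ ψ : V → Fin 6, PC G X ψ → ψ al ≠ ψ be ∧
      (∃ y ∈ X, G.Adj v0 y ∧ ψ y = ψ al) ∧ ∃ y ∈ X, G.Adj v0 y ∧ ψ y = ψ be := by
    intro ψ hψ
    obtain ⟨⟨Z, hZ, -, -, -, hhit⟩, -⟩ := ns_step h hr hX hc hf hp hY hψ
    have h1 : Z ⊆ {ψ al, ψ be} := by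
      intro i hi
      have h2 := hhit m1 hm1'.2 hi
      rw [hit, mem_filter] at h2
      obtain ⟨-, y, hy, hyi, hvy⟩ := h2
      rcases ((hadj m1 hm1'.2 hm1'.1).2 y hy).1 hvy with rfl | rfl
      · rw [← hyi]; simp
      · rw [← hyi]; simp
    have h2 : ψ al ≠ ψ be := by
      intro e
      have h3 := card_le_card h1
      rw [e, pair_eq_singleton, card_singleton] at h3
      omega
    have h3 : Z = {ψ al, ψ be} := eq_of_subset_of_card_le h1 (by rw [card_pair h2, hZ])
    have h4 := hhit v0 hvA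
    refine ⟨h2, ?_, ?_⟩
    · have h5 := h4 (show ψ al ∈ Z by rw [h3]; simp)
      rw [hit, mem_filter] at h5
      obtain ⟨-, y, hy, hyi, hvy⟩ := h5
      exact ⟨y, hy, hvy, hyi⟩
    · have h5 := h4 (show ψ be ∈ Z by rw [h3]; simp)
      rw [hit, mem_filter] at h5
      obtain ⟨-, y, hy, hyi, hvy⟩ := h5
      exact ⟨y, hy, hvy, hyi⟩
  -- not both
  have hnb : ∀ p q : V, p ∈ X → q ∈ X → p ≠ q → (∀ a ∈ S \ X, a ≠ v0 → G.Adj a p ∧ G.Adj a q) →
      (∀ ψ : V → Fin 6, PC G X ψ → ψ p ≠ ψ q ∧ ∃ y ∈ X, G.Adj v0 y ∧ ψ y = ψ q) →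
      ¬ G.Adj v0 p := by
    intro p q hpX hqX hpq hadj' hcol' hvp
    by_cases hvq : G.Adj v0 q
    · -- `K_7` minus an edge
      have hpA : p ∉ S \ X := fun e => (mem_sdiff.1 e).2 hpX
      have hqA : q ∉ S \ X := fun e => (mem_sdiff.1 e).2 hqX
      have h1 := no_ce Nm6 h (insert p (S \ X)) (by
        intro z hz
        rcases mem_insert.1 hz with rfl | hz
        · exact hX hpX
        · exact (mem_sdiff.1 hz).1) (by
        intro a ha c hc' hac
        rcases mem_insert.1 ha with ha1 | ha1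
        · rcases mem_insert.1 hc' with hc1 | hc1
          · exact absurd (ha1.trans hc1.symm) hac
          · rw [ha1]
            by_cases hcv : c = v0
            · rw [hcv]; exact hvp.symm
            · exact (hadj' c hc1 hcv).1.symm
        · rcases mem_insert.1 hc' with hc1 | hc1
          · rw [hc1]
            by_cases hav : a = v0
            · rw [hav]; exact hvp
            · exact (hadj' a ha1 hav).1
          · exact hq a ha1 c hc1 hac) (by rw [card_insert_of_notMem hpA, hf]) q (hX hqX)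
        (by
          intro e
          rcases mem_insert.1 e with e | e
          · exact hpq e.symm
          · exact hqA e)
      have h2 : ((insert p (S \ X)).filter fun t => ¬ G.Adj q t) ⊆ {p} := by
        intro t ht
        obtain ⟨ht1, ht2⟩ := mem_filter.1 ht
        rcases mem_insert.1 ht1 with rfl | ht1
        · exact mem_singleton_self _
        · exfalso
          apply ht2
          by_cases htv : t = v0
          · rw [htv]; exact hvq.symm
          · exact (hadj' t ht1 htv).2.symm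
      have h3 := card_le_card h2
      rw [card_singleton] at h3
      omega
    · -- the other two neighbours
      have h1 : ((X.filter fun y => G.Adj v0 y).erase p).card = 2 := by
        rw [card_erase_of_mem (mem_filter.2 ⟨hpX, hvp⟩), hN5]
      obtain ⟨y1, y2, hy12, hyy⟩ := card_eq_two.1 h1
      have hy1 : y1 ∈ (X.filter fun y => G.Adj v0 y).erase p := by rw [hyy]; simp
      have hy2 : y2 ∈ (X.filter fun y => G.Adj v0 y).erase p := by rw [hyy]; simp
      obtain ⟨hy1p, hy1f⟩ := mem_erase.1 hy1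
      obtain ⟨hy2p, hy2f⟩ := mem_erase.1 hy2
      obtain ⟨hy1X, hy1v⟩ := mem_filter.1 hy1f
      obtain ⟨hy2X, hy2v⟩ := mem_filter.1 hy2f
      have hq1 : q ≠ y1 := fun e => hvq (e ▸ hy1v)
      have hq2 : q ≠ y2 := fun e => hvq (e ▸ hy2v)
      obtain ⟨ψ, hψ, g1, g2⟩ := star_pc h (Or.inr hr) hX hne hqX hy1X hy2X hq1 hq2
      obtain ⟨g3, y, hy, hvy, hyq⟩ := hcol' ψ hψ
      by_cases hyp : y = p
      · exact g3 (hyp ▸ hyq)
      · have h2 : y ∈ (X.filter fun y => G.Adj v0 y).erase p :=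
          mem_erase.2 ⟨hyp, mem_filter.2 ⟨hy, hvy⟩⟩
        rw [hyy, mem_insert, mem_singleton] at h2
        rcases h2 with rfl | rfl
        · exact g1 hyq.symm
        · exact g2 hyq.symm
  have hnal : ¬ G.Adj v0 al := by
    refine hnb al be halX.1 hbeX.1 halbe ?_ ?_
    · intro a ha hav
      exact ⟨((hadj a ha hav).2 al halX.1).2 (Or.inl rfl), ((hadj a ha hav).2 be hbeX.1).2
        (Or.inr rfl)⟩
    · intro ψ hψ
      obtain ⟨g1, -, g2⟩ := hcol ψ hψ
      exact ⟨g1, g2⟩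
  have hnbe : ¬ G.Adj v0 be := by
    refine hnb be al hbeX.1 halX.1 halbe.symm ?_ ?_
    · intro a ha hav
      exact ⟨((hadj a ha hav).2 be hbeX.1).2 (Or.inr rfl), ((hadj a ha hav).2 al halX.1).2
        (Or.inl rfl)⟩
    · intro ψ hψ
      obtain ⟨g1, g2, -⟩ := hcol ψ hψ
      exact ⟨g1.symm, g2⟩
  refine ⟨v0, hvA, al, halX.1, be, hbeX.1, halbe, hq, hv7, hadj, hN5, hnal, hnbe, ?_⟩
  -- the boundary
  have h1 : insert al (insert be (X.filter fun y => G.Adj v0 y)) ⊆ bd G S X := by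
    intro y hy
    rw [mem_insert, mem_insert, mem_filter] at hy
    rcases hy with rfl | rfl | ⟨hy1, hy2⟩
    · exact mem_filter.2 ⟨halX.1, m1, hm1'.2, halX.2.symm⟩
    · exact mem_filter.2 ⟨hbeX.1, m1, hm1'.2, hbeX.2.symm⟩
    · exact mem_filter.2 ⟨hy1, v0, hvA, hy2.symm⟩
  have h2 := card_le_card h1
  rw [card_insert_of_notMem, card_insert_of_notMem, hN5] at h2
  · exact h2
  · exact fun e => hnbe (mem_filter.1 e).2
  · rw [mem_insert, not_or]
    exact ⟨halbe, fun e => hnal (mem_filter.1 e).2⟩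

end Pool.Agent.OX22
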