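import Pool.Agent.Lib_helper51.OK5.Low
import Pool.Agent.Lib_helper28.OW.G4b

/-!
# Exchanging colours in a clique; systems of distinct representatives on a clique
-/

set_option autoImplicit false
set_option linter.unusedSectionVars false
set_option linter.unusedVariables false

open scoped Classical
open Finset
open Pool.Agent.O2 (PC Cb CrOn pr ms dg nd addE)
open Pool.Agent.O3 (con hit Clq)
open Pool.Agent.OW28 (NoCE Add1)
open Pool.Agent.OW

namespace Pool.Agent.OX22

variable {V : Type} {K : ℕ} {G : SimpleGraph V} {S X T : Finset V} {w : V}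

/-- recolouring by a permutation of a clique -/
theorem perm_pc {ψ : V → Fin K} (hψ : PC G X ψ) (hT : T ⊆ X) (hq : Clq G T)
    (σ : Equiv.Perm V) (hσ : ∀ a, a ∉ T → σ a = a)
    (h : ∀ a ∈ T, ∀ y ∈ X, y ∉ T → G.Adj a y → ψ (σ a) ≠ ψ y) :
    PC G X (fun a => ψ (σ a)) := by
  have hmem : ∀ a ∈ T, σ a ∈ T := by
    intro a ha
    by_contra hn
    have h1 := hσ (σ a) hn
    have h2 := σ.injective h1
    rw [h2] at hn
    exact hn ha
  intro a ha b hb hab
  show ψ (σ a) ≠ ψ (σ b)
  by_cases haT : a ∈ T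
  · by_cases hbT : b ∈ T
    · have h1 : σ a ≠ σ b := fun e => hab.ne (σ.injective e)
      exact hψ (σ a) (hT (hmem a haT)) (σ b) (hT (hmem b hbT))
        (hq (σ a) (hmem a haT) (σ b) (hmem b hbT) h1)
    · rw [hσ b hbT]
      exact h a haT b hb hbT hab
  · by_cases hbT : b ∈ T
    · rw [hσ a haT]
      exact (h b hbT a ha haT hab.symm).symm
    · rw [hσ a haT, hσ b hbT]
      exact hψ a ha b hb hab

theorem clq_inj {ψ : V → Fin K} (hψ : PC G X ψ) (hT : T ⊆ X) (hq : Clq G T) :
    Set.InjOn ψ (T : Set V) := by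
  intro a ha b hb hab
  by_contra hne
  exact hψ a (hT (mem_coe.1 ha)) b (hT (mem_coe.1 hb)) (hq a (mem_coe.1 ha) b (mem_coe.1 hb) hne)
    hab

theorem clq_surj {ψ : V → Fin K} (hψ : PC G X ψ) (hT : T ⊆ X) (hq : Clq G T) (hc : T.card = K)
    (i : Fin K) : ∃ t ∈ T, ψ t = i := by
  have h1 : T.image ψ = univ := by
    apply eq_univ_of_card
    rw [card_image_of_injOn (clq_inj hψ hT hq), hc]
    simp
  have h2 : i ∈ T.image ψ := by rw [h1]; exact mem_univ i
  obtain ⟨t, h3, h4⟩ := mem_image.1 h2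
  exact ⟨t, h3, h4⟩

/-- a `K`-clique of `X` with at most one further neighbour in `X` for each vertex; the vertices off
the boundary are low with the common outer neighbour `w` -/
structure Em (G : SimpleGraph V) (S : Finset V) (K : ℕ) (X T : Finset V) (w : V) : Prop where
  XS : X ⊆ S
  TX : T ⊆ X
  cT : T.card = K
  q : Clq G T
  uo : ∀ a ∈ T, ∀ y ∈ X, ∀ y' ∈ X, y ∉ T → y' ∉ T → G.Adj a y → G.Adj a y' → y = y'
  wX : w ∈ X
  wT : w ∉ T
  lw : ∀ t ∈ T, t ∉ bd G S X → G.Adj t w ∧ ∀ y ∈ S, G.Adj t y → y ∉ T → y = w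

/-- the part off the boundary -/
noncomputable def Lp (G : SimpleGraph V) (S X T : Finset V) : Finset V :=
  T.filter fun t => t ∉ bd G S X

/-- the part on the boundary -/
noncomputable def Bp (G : SimpleGraph V) (S X T : Finset V) : Finset V :=
  T.filter fun t => t ∈ bd G S X

theorem mem_Lp {t : V} : t ∈ Lp G S X T ↔ t ∈ T ∧ t ∉ bd G S X := mem_filter

theorem mem_Bp {t : V} : t ∈ Bp G S X T ↔ t ∈ T ∧ t ∈ bd G S X := mem_filter

theorem Lp_Bp : (Bp G S X T).card + (Lp G S X T).card = T.card :=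
  card_filter_add_card_filter_not _

/-- exchange of the colours of `b` and the low vertex `t` -/
theorem Em.exch (e : Em G S K X T w) {ψ : V → Fin K} (hψ : PC G X ψ) {b t : V} (hb : b ∈ T)
    (hbw : ψ b ≠ ψ w) (ht : t ∈ Lp G S X T)
    (hal : ∀ y ∈ X, y ∉ T → G.Adj b y → ψ y ≠ ψ t) :
    PC G X (fun a => ψ (Equiv.swap b t a)) := by
  obtain ⟨htT, htb⟩ := mem_Lp.1 ht
  apply perm_pc hψ e.TX e.q
  · intro a ha
    exact Equiv.swap_apply_of_ne_of_ne (fun h => ha (h ▸ hb)) (fun h => ha (h ▸ htT))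
  · intro a ha y hy hyT hay
    by_cases h1 : a = b
    · rw [h1, Equiv.swap_apply_left]
      exact (hal y hy hyT (h1 ▸ hay)).symm
    · by_cases h2 : a = t
      · rw [h2, Equiv.swap_apply_right]
        rw [h2] at hay
        rw [(e.lw t htT htb).2 y (e.XS hy) hay hyT]
        exact hbw
      · rw [Equiv.swap_apply_of_ne_of_ne h1 h2]
        exact hψ a (e.TX ha) y hy hay

/-- among two candidates one is allowed -/
theorem Em.allow (e : Em G S K X T w) {ψ : V → Fin K} (hψ : PC G X ψ) {b : V} (hb : b ∈ T)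
    {L : Finset V} (hL : L ⊆ T) (h2 : 2 ≤ L.card) :
    ∃ t ∈ L, ∀ y ∈ X, y ∉ T → G.Adj b y → ψ y ≠ ψ t := by
  by_cases h : ∃ y ∈ X, y ∉ T ∧ G.Adj b y
  · obtain ⟨y0, h3, h4, h5⟩ := h
    obtain ⟨t0, ht0, ht0c⟩ := clq_surj hψ e.TX e.q e.cT (ψ y0)
    have h6 : 0 < (L.erase t0).card := by
      have := pred_card_le_card_erase (s := L) (a := t0)
      omega
    obtain ⟨t, ht⟩ := card_pos.1 h6
    obtain ⟨h7, h8⟩ := mem_erase.1 ht
    refine ⟨t, h8, ?_⟩
    intro y hy hyT hby hc
    rw [e.uo b hb y hy y0 h3 hyT h4 hby h5, ← ht0c] at hc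
    exact h7 (clq_inj hψ e.TX e.q (mem_coe.2 (hL h8)) (mem_coe.2 ht0) hc.symm)
  · push Not at h
    obtain ⟨t, ht⟩ := card_pos.1 (show 0 < L.card by omega)
    exact ⟨t, ht, fun y hy hyT hby => absurd hby (h y hy hyT)⟩

theorem Em.Bimg (e : Em G S K X T w) {ψ : V → Fin K} (hψ : PC G X ψ) :
    ((Bp G S X T).image ψ).card = (Bp G S X T).card := by
  apply card_image_of_injOn
  intro a ha b hb hab
  exact clq_inj hψ e.TX e.q (mem_coe.2 (mem_Bp.1 (mem_coe.1 ha)).1)
    (mem_coe.2 (mem_Bp.1 (mem_coe.1 hb)).1) hab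

theorem Em.Bsub (ψ : V → Fin K) : (Bp G S X T).image ψ ⊆ (bd G S X).image ψ := by
  apply image_subset_image
  intro a ha
  exact (mem_Bp.1 ha).2

/-- the new colouring on the boundary: all colours of `B` except that of `b` stay, the colour of
`t` comes, and the vertices off `T` keep their colours -/
theorem Em.exch_bd (e : Em G S K X T w) {ψ : V → Fin K} {b t : V} (hb : b ∈ Bp G S X T)
    (ht : t ∈ Lp G S X T) :
    (((Bp G S X T).image ψ).erase (ψ b) ∪ {ψ t}) ∪ (((bd G S X) \ T).image ψ) ⊆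
      (bd G S X).image (fun a => ψ (Equiv.swap b t a)) := by
  obtain ⟨htT, htb⟩ := mem_Lp.1 ht
  obtain ⟨hbT, hbb⟩ := mem_Bp.1 hb
  intro i hi
  rw [mem_union, mem_union, mem_erase, mem_singleton] at hi
  rcases hi with (⟨h1, h2⟩ | h1) | h1
  · obtain ⟨c, hc, rfl⟩ := mem_image.1 h2
    obtain ⟨hcT, hcb⟩ := mem_Bp.1 hc
    have hc1 : c ≠ b := fun h => h1 (by rw [h])
    have hc2 : c ≠ t := fun h => htb (h ▸ hcb)
    exact mem_image.2 ⟨c, hcb, by rw [Equiv.swap_apply_of_ne_of_ne hc1 hc2]⟩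
  · rw [h1]
    exact mem_image.2 ⟨b, hbb, by rw [Equiv.swap_apply_left]⟩
  · obtain ⟨y, hy, rfl⟩ := mem_image.1 h1
    obtain ⟨hyb, hyT⟩ := mem_sdiff.1 hy
    have hc1 : y ≠ b := fun h => hyT (h ▸ hbT)
    have hc2 : y ≠ t := fun h => hyT (h ▸ htT)
    exact mem_image.2 ⟨y, hyb, by rw [Equiv.swap_apply_of_ne_of_ne hc1 hc2]⟩

/-- if `T` always has all boundary colours, the rest of the boundary has the colour of `w` -/
theorem Em.sat (e : Em G S K X T w) (hL : 2 ≤ (Lp G S X T).card)
    (hcol : ∀ ψ : V → Fin K, PC G X ψ → ((bd G S X).image ψ).card ≤ (Bp G S X T).card)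
    {ψ : V → Fin K} (hψ : PC G X ψ) {y : V} (hy : y ∈ bd G S X) (hyT : y ∉ T) : ψ y = ψ w := by
  have h1 : (Bp G S X T).image ψ = (bd G S X).image ψ :=
    eq_of_subset_of_card_le (Em.Bsub ψ) (by rw [e.Bimg hψ]; exact hcol ψ hψ)
  have h2 : ψ y ∈ (Bp G S X T).image ψ := by rw [h1]; exact mem_image_of_mem ψ hy
  obtain ⟨b, hb, hbc⟩ := mem_image.1 h2
  by_contra hne
  rw [← hbc] at hne
  obtain ⟨hbT, hbb⟩ := mem_Bp.1 hb
  obtain ⟨t, ht, hal⟩ := e.allow hψ hbT (L := Lp G S X T) (filter_subset _ _) hL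
  have h3 := e.exch hψ hbT hne ht hal
  have h4 := hcol _ h3
  have h5 := card_le_card (e.exch_bd (ψ := ψ) hb ht)
  obtain ⟨htT, htb⟩ := mem_Lp.1 ht
  have hbt : ψ t ∉ (Bp G S X T).image ψ := by
    intro hc
    obtain ⟨c, hc1, hc2⟩ := mem_image.1 hc
    obtain ⟨hcT, hcb⟩ := mem_Bp.1 hc1
    have := clq_inj hψ e.TX e.q (mem_coe.2 hcT) (mem_coe.2 htT) hc2
    exact htb (this ▸ hcb)
  have h6 : insert (ψ t) ((Bp G S X T).image ψ) ⊆
      (((Bp G S X T).image ψ).erase (ψ b) ∪ {ψ t}) ∪ (((bd G S X) \ T).image ψ) := by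
    intro i hi
    rw [mem_union, mem_union, mem_erase, mem_singleton]
    rcases mem_insert.1 hi with rfl | hi
    · exact Or.inl (Or.inr rfl)
    · by_cases h7 : i = ψ b
      · right
        rw [h7, hbc]
        exact mem_image.2 ⟨y, mem_sdiff.2 ⟨hy, hyT⟩, rfl⟩
      · exact Or.inl (Or.inl ⟨h7, hi⟩)
  have h7 := card_le_card h6
  rw [card_insert_of_notMem hbt, e.Bimg hψ] at h7
  omega

/-- a system of distinct representatives -/
theorem sdr {M : Finset V} {L : V → Finset (Fin K)} (hK : 0 < K) {a : V}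
    (h1 : ∀ m ∈ M, m ≠ a → M.card ≤ (L m).card + 1) (ha : a ∈ M → (L a).Nonempty)
    (h2 : M.card ≤ (M.biUnion L).card) :
    ∃ f : V → Fin K, (∀ m ∈ M, f m ∈ L m) ∧ ∀ m ∈ M, ∀ m' ∈ M, m ≠ m' → f m ≠ f m' := by
  have hall := (Finset.all_card_le_biUnion_card_iff_exists_injective
    (fun m : {m // m ∈ M} => L m.1)).1 (by
    intro s
    by_cases hs : s = univ
    · have h3 : s.card = M.card := by
        rw [hs, card_univ, Fintype.card_coe]
      rw [h3]
      refine h2.trans (card_le_card ?_)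
      intro i hi
      obtain ⟨m, hm, hi⟩ := mem_biUnion.1 hi
      exact mem_biUnion.2 ⟨⟨m, hm⟩, by rw [hs]; exact mem_univ _, hi⟩
    · have h3 : s.card < M.card := by
        have h4 := card_lt_univ_of_notMem (s := s) (x := (by
          by_contra hcon
          exact hs (eq_univ_of_forall fun x => by
            by_contra hx
            exact hcon ⟨x, hx⟩) : ∃ x, x ∉ s).choose) (by
          exact (by
            by_contra hcon
            exact hs (eq_univ_of_forall fun x => by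
              by_contra hx
              exact hcon ⟨x, hx⟩) : ∃ x, x ∉ s).choose_spec)
        rwa [Fintype.card_coe] at h4
      rcases s.eq_empty_or_nonempty with h4 | ⟨x, hx⟩
      · rw [h4, card_empty]; exact Nat.zero_le _
      · by_cases h5 : ∃ y ∈ s, y.1 ≠ a
        · obtain ⟨y, hy, hya⟩ := h5
          have h6 := h1 y.1 y.2 hya
          have h7 : (L y.1).card ≤ (s.biUnion fun m : {m // m ∈ M} => L m.1).card :=
            card_le_card (subset_biUnion_of_mem (fun m : {m // m ∈ M} => L m.1) hy)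
          omega
        · push Not at h5
          have h6 : s.card ≤ 1 := by
            rw [card_le_one]
            intro y hy z hz
            exact Subtype.ext ((h5 y hy).trans (h5 z hz).symm)
          have h7 : 1 ≤ (L x.1).card := by
            rw [h5 x hx]
            exact card_pos.2 (ha (h5 x hx ▸ x.2))
          have h8 : (L x.1).card ≤ (s.biUnion fun m : {m // m ∈ M} => L m.1).card :=
            card_le_card (subset_biUnion_of_mem (fun m : {m // m ∈ M} => L m.1) hx)
          omega)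
  obtain ⟨f, hf, hfL⟩ := hall
  refine ⟨fun v => if h : v ∈ M then f ⟨v, h⟩ else ⟨0, hK⟩, ?_, ?_⟩
  · intro m hm
    simp only [dif_pos hm]
    exact hfL ⟨m, hm⟩
  · intro m hm m' hm' hne
    simp only [dif_pos hm, dif_pos hm']
    intro h
    exact hne (congrArg Subtype.val (hf h))

/-- extension of a colouring of `S \ M` to `S`, from lists -/
theorem extend {M : Finset V} {ψ f : V → Fin K} (hM : M ⊆ S) (hψ : PC G (S \ M) ψ)
    (hf : ∀ m ∈ M, f m ∉ ((S \ M).filter fun y => G.Adj m y).image ψ)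
    (hfi : ∀ m ∈ M, ∀ m' ∈ M, m ≠ m' → f m ≠ f m') :
    PC G S (fun a => if a ∈ M then f a else ψ a) := by
  intro a ha b hb hab
  by_cases haM : a ∈ M
  · by_cases hbM : b ∈ M
    · simp only [if_pos haM, if_pos hbM]
      exact hfi a haM b hbM hab.ne
    · simp only [if_pos haM, if_neg hbM]
      intro h
      exact hf a haM (mem_image.2 ⟨b, mem_filter.2 ⟨mem_sdiff.2 ⟨hb, hbM⟩, hab⟩, h.symm⟩)
  · by_cases hbM : b ∈ M
    · simp only [if_neg haM, if_pos hbM]
      intro h
      exact hf b hbM (mem_image.2 ⟨a, mem_filter.2 ⟨mem_sdiff.2 ⟨ha, haM⟩, hab.symm⟩, h⟩)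
    · simp only [if_neg haM, if_neg hbM]
      exact hψ a (mem_sdiff.2 ⟨ha, haM⟩) b (mem_sdiff.2 ⟨hb, hbM⟩) hab

/-- the outer neighbours of a clique -/
theorem out_card {M : Finset V} (hM : M ⊆ S) (hq : Clq G M) {m : V} (hm : m ∈ M) :
    ((S \ M).filter fun y => G.Adj m y).card + M.card = dg G S m + 1 := by
  have h1 : dg G S m = ((S \ M).filter fun y => G.Adj m y).card +
      (M.filter fun y => G.Adj m y).card := by
    unfold dg
    rw [← card_union_of_disjoint]
    · congr 1
      ext y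
      rw [mem_union, mem_filter, mem_filter, mem_filter, mem_sdiff]
      constructor
      · rintro ⟨h1, h2⟩
        by_cases h3 : y ∈ M
        · exact Or.inr ⟨h3, h2⟩
        · exact Or.inl ⟨⟨h1, h3⟩, h2⟩
      · rintro (⟨⟨h1, -⟩, h2⟩ | ⟨h1, h2⟩)
        · exact ⟨h1, h2⟩
        · exact ⟨hM h1, h2⟩
    · rw [disjoint_left]
      intro y hy hy'
      exact (mem_sdiff.1 (mem_filter.1 hy).1).2 (mem_filter.1 hy').1
  have h2 : (M.filter fun y => G.Adj m y) = M.erase m := by
    ext y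
    rw [mem_filter, mem_erase]
    constructor
    · rintro ⟨h3, h4⟩
      exact ⟨h4.ne', h3⟩
    · rintro ⟨h3, h4⟩
      exact ⟨h4, hq m hm y h4 h3.symm⟩
  rw [h2, card_erase_of_mem hm] at h1
  have := card_pos.2 ⟨m, hm⟩
  omega

/-- a low clique: all outer colour sets are equal and rainbow -/
theorem low_clq_col {M : Finset V} (hS : CrOn G S K) (hK : 0 < K) (hM : M ⊆ S) (hq : Clq G M)
    (hlow : ∀ m ∈ M, dg G S m = K) (hMne : M.Nonempty) {ψ : V → Fin K}
    (hψ : PC G (S \ M) ψ) :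
    ∃ Z : Finset (Fin K), Z.card + M.card = K + 1 ∧
      ∀ m ∈ M, ((S \ M).filter fun y => G.Adj m y).image ψ = Z := by
  set N : V → Finset (Fin K) := fun m => ((S \ M).filter fun y => G.Adj m y).image ψ with hN
  have hNc : ∀ m ∈ M, (N m).card + M.card ≤ K + 1 := by
    intro m hm
    have h1 := out_card hM hq hm
    rw [hlow m hm] at h1
    have h2 : (N m).card ≤ ((S \ M).filter fun y => G.Adj m y).card := card_image_le
    omega
  have hLc : ∀ m ∈ M, ((N m)ᶜ).card + (N m).card = K := by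
    intro m _
    rw [card_compl, Fintype.card_fin]
    have := card_le_univ (N m)
    rw [Fintype.card_fin] at this
    omega
  obtain ⟨m0, hm0⟩ := hMne
  have key : (M.biUnion fun m => (N m)ᶜ).card < M.card := by
    by_contra hlt
    push Not at hlt
    obtain ⟨f, hf, hfi⟩ := sdr (M := M) (L := fun m => (N m)ᶜ) hK (a := m0) (by
      intro m hm _
      have h1 := hNc m hm
      have h2 := hLc m hm
      show M.card ≤ ((N m)ᶜ).card + 1
      omega) (by
      intro _
      rw [← card_pos]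
      have h1 := hNc m0 hm0
      have h2 := hLc m0 hm0
      rcases Nat.lt_or_ge 1 M.card with h3 | h3
      · show 0 < ((N m0)ᶜ).card
        omega
      · -- one vertex: its list is the union
        have h4 : M = {m0} := by
          apply eq_singleton_iff_unique_mem.2
          refine ⟨hm0, fun x hx => ?_⟩
          exact card_le_one.1 h3 x hx m0 hm0
        rw [h4, singleton_biUnion, card_singleton] at hlt
        exact hlt) hlt
    apply hS.1
    apply Pool.Agent.O2.cb_of_pc (φ := fun a => if a ∈ M then f a else ψ a)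
    exact extend hM hψ (fun m hm => by
      have := hf m hm
      exact mem_compl.1 this) hfi
  have hall : ∀ m ∈ M, (N m)ᶜ = M.biUnion fun m => (N m)ᶜ := by
    intro m hm
    apply eq_of_subset_of_card_le
    · exact subset_biUnion_of_mem (fun m => (N m)ᶜ) hm
    · have h1 := hNc m hm
      have h2 := hLc m hm
      omega
  refine ⟨(M.biUnion fun m => (N m)ᶜ)ᶜ, ?_, ?_⟩
  · rw [← hall m0 hm0, compl_compl]
    have h1 := hNc m0 hm0
    have h2 := hLc m0 hm0
    rw [hall m0 hm0] at h2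
    omega
  · intro m hm
    rw [← hall m hm, compl_compl]

end Pool.Agent.OX22
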