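import Pool.Agent.Lib_helper22.OX.AE2

/-!
# Six colours, residues 3 and 4: tables far from `S`, two edges, boundary colours
-/

set_option autoImplicit false
set_option linter.unusedSectionVars false
set_option linter.unusedVariables false
set_option synthInstance.maxSize 2000

open scoped Classical
open Finset
open Pool.Agent.O2 (PC Cb CrOn pr ms dg nd addE)
open Pool.Agent.O3 (con hit Clq Non)
open Pool.Agent.OW28 (NoCE Add1)
open Pool.Agent.OW
open Pool.Agent.OW.S5 (PS Tgt Yy_con_empty)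
open Pool.Agent.OX25 (T6 tgap6 small_card lemmaT6)
open Pool.Agent.OX28

namespace Pool.Agent.OX22

variable {V : Type} {K : ℕ} {b : ℕ → ℤ} {G : SimpleGraph V} {S X T M R W : Finset V} {w : V}

/-- far from `S` there are no sets with `Y ≤ 5` -/
theorem far_six (h : Cex G S 6 b6) (hr : (S.card - 1) % 6 = 3 ∨ (S.card - 1) % 6 = 4)
    (hR : R ⊆ S) (hc : 6 + 1 ≤ R.card) (hf : (S.card - 1) % 6 + 1 ≤ (S \ R).card) :
    6 ≤ Yy G 6 b6 R := by
  have hne : R ≠ S := by
    rintro rfl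
    have h0 : (R \ R).card = 0 := by simp
    omega
  have h1 := Yev Nm6 G (X := R) (card_pos.1 (by omega))
  by_contra hlt
  obtain ⟨-, hL⟩ := low_34 h hr hR hne hc (by omega)
  have := hL.1
  omega

/-- two edges can be added to a subset which is far from `S` -/
theorem ae_far (h : Cex G S 6 b6) (hr : (S.card - 1) % 6 = 3 ∨ (S.card - 1) % 6 = 4)
    (hR : R ⊆ S) (hf : (S.card - 1) % 6 + 1 ≤ (S \ R).card) {F : Finset (V × V)}
    (hF2 : F.card ≤ 2) : Cb (addE G F) R 6 := by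
  have hne : R ≠ S := by
    rintro rfl
    have h0 : (R \ R).card = 0 := by simp
    omega
  by_contra hcb
  obtain ⟨W, hW, hcr, hWc, hlt, hnew, hWY⟩ := addE_small h.cr h.ih hR hne hcb
  have h1 := far_six h hr (hW.trans hR) hWc
    (hf.trans (card_le_card (sdiff_subset_sdiff (Subset.refl S) hW)))
  have hn2 : ((newE G F W).card : ℤ) ≤ 2 := by
    exact_mod_cast (newE_card_le G F W).trans hF2
  linarith

/-- the colouring form: two pairs of different vertices get different colours -/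
theorem far_pc (h : Cex G S 6 b6) (hr : (S.card - 1) % 6 = 3 ∨ (S.card - 1) % 6 = 4)
    (hR : R ⊆ S) (hf : (S.card - 1) % 6 + 1 ≤ (S \ R).card) {p q p' q' : V} (hp : p ∈ R)
    (hq : q ∈ R) (hp' : p' ∈ R) (hq' : q' ∈ R) (hpq : p ≠ q) (hpq' : p' ≠ q') :
    ∃ ψ : V → Fin 6, PC G R ψ ∧ ψ p ≠ ψ q ∧ ψ p' ≠ ψ q' := by
  have h1 := ae_far h hr hR hf (F := {(p, q), (p', q')}) ((card_insert_le _ _).trans (by simp))
  obtain ⟨ψ, hψ⟩ := (Pool.Agent.O2.cb_fin (by omega)).1 h1
  refine ⟨ψ, fun u hu v hv huv => hψ u hu v hv (Or.inl huv), ?_, ?_⟩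
  · exact hψ p hp q hq (Or.inr ⟨hpq, Or.inl (by simp)⟩)
  · exact hψ p' hp' q' hq' (Or.inr ⟨hpq', Or.inl (by simp)⟩)

/-- residue 4: the improved table -/
def q4 (p : ℕ) : ℤ := if p = 0 then 4 else if p = 1 then 8 else if p = 2 then 10 else 8

theorem tab_q4 (h : Cex G S 6 b6) (hr : (S.card - 1) % 6 = 4) (hR : R ⊆ S) (hne : R ≠ S)
    (hc : 6 + 1 ≤ R.card) : q4 ((R.card - 1) % 6) ≤ Yy G 6 b6 R := by
  have h1 := tab_r4 h hr R hR hne hc
  have h2 := eight_r4 h hr hR hne hc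
  have hev := Yev Nm6 G (X := R) (card_pos.1 (by omega))
  have hlt : (R.card - 1) % 6 < 6 := Nat.mod_lt _ (by omega)
  have h5 : (R.card - 1) % 6 = 5 → 8 ≤ Yy G 6 b6 R := by
    intro hp
    by_contra hlt
    obtain ⟨h3, h4, h5⟩ := low_r4_5 h hr hR hne hc hp (by omega)
    exact no_low5 h (Or.inr hr) sdiff_subset h4 h5 h3.ge
  unfold r4 at h1
  unfold q4
  split_ifs at h1 ⊢ <;> first | assumption | linarith | (exact h2 (by assumption)) |
    (exact h5 (by omega))

/-- the clique in a tight piece with one colour -/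
theorem step_clq (h : Cex G S 6 b6) {A : Finset V} {ψ : V → Fin 6} {Z : Finset (Fin 6)}
    (hst : Step G S X ψ A Z) (hXc : 6 + 1 ≤ X.card) (hZ : Z.card = 1)
    (hres : 6 ∣ (A.disjSum Z).card - 1)
    (hQ : Yy (con G X ψ) 6 b6 (A.disjSum Z) = 0) :
    ∃ T ⊆ A, T.card = 6 ∧ Clq G T ∧
      ∀ t ∈ T, dg (con G X ψ) (A.disjSum Z) (Sum.inl t) = 6 := by
  have hT : Tgt 6 b6 (con G X ψ) (A.disjSum Z) := ⟨hst.cr, hres, hQ⟩
  have hlt := hst.Q_lt hXc
  have ih : IH 6 b6 ((A.disjSum Z).card + 1) := by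
    intro V' G' S' h1 h2
    exact h.ih V' G' S' h1 (by omega)
  obtain ⟨c, hc⟩ := card_eq_one.1 hZ
  subst hc
  have hcmem : Sum.inr c ∈ A.disjSum ({c} : Finset (Fin 6)) :=
    inr_mem_disjSum.2 (mem_singleton_self c)
  obtain ⟨T', hT', hTc, hTq, hTd⟩ := Pool.Agent.OX25.lemmaT6' T6_6 ih hT hcmem (by
    intro R' hR' hYR
    by_contra hcR
    have hd : 6 ∣ R'.card - 1 := by
      by_contra hd
      have h1 := (tgap6 T6_6 ih hT hR').2 hd
      push_cast at h1
      linarith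
    have hc' := small_card hR' hd
    obtain ⟨A', Z₁, rfl⟩ := eq_disjSum R'
    have hZ₁ : Z₁ = ∅ := by
      rw [eq_empty_iff_forall_notMem]
      intro i hi
      have h1 := inr_mem_disjSum.1 (hR'.sub (inr_mem_disjSum.2 hi))
      rw [mem_singleton] at h1
      subst h1
      exact hcR (inr_mem_disjSum.2 hi)
    subst hZ₁
    have hA' : A' ⊆ A := fun v hv => inl_mem_disjSum.1 (hR'.sub (inl_mem_disjSum.2 hv))
    rw [card_disjSum, card_empty, add_zero] at hc'
    rw [Yy_con_empty] at hYR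
    obtain ⟨y, hy⟩ := card_pos.1 (show 0 < X.card by omega)
    have h1 := Y_four Nm6 h A' (hA'.trans hst.subA) (fun e => by
      have h2 := hst.sub hy
      rw [← e] at h2
      exact (mem_sdiff.1 (hst.hA (hA' h2))).2 hy) hc'
    linarith)
  obtain ⟨T, Z₁, rfl⟩ := eq_disjSum T'
  have hZ₁ : Z₁ = ∅ := by
    rw [eq_empty_iff_forall_notMem]
    intro i hi
    obtain ⟨h2, h1⟩ := hT' _ (inr_mem_disjSum.2 hi)
    have h3 := mem_singleton.1 (inr_mem_disjSum.1 h2)
    exact h1 (by rw [h3])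
  subst hZ₁
  rw [card_disjSum, card_empty, add_zero] at hTc
  have hTA : T ⊆ A := fun v hv => inl_mem_disjSum.1 (hT' _ (inl_mem_disjSum.2 hv)).1
  refine ⟨T, hTA, hTc, ?_, ?_⟩
  · intro a ha d hd had
    exact hTq (Sum.inl a) (inl_mem_disjSum.2 ha) (Sum.inl d) (inl_mem_disjSum.2 hd)
      (fun e => had (Sum.inl_injective e))
  · intro t ht
    exact hTd (Sum.inl t) (inl_mem_disjSum.2 ht)

/-- a step with one colour, without loss and with tight piece does not lead to the complement of a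
low clique -/
theorem step_em (h : Cex G S 6 b6) (hr : (S.card - 1) % 6 = 3 ∨ (S.card - 1) % 6 = 4)
    {A : Finset V} {ψ : V → Fin 6} {Z : Finset (Fin 6)}
    (hst : Step G S X ψ A Z) (hXc : 6 + 1 ≤ X.card) (hZ : Z.card = 1)
    (hg : gain G X ψ A Z = 0) (hres : 6 ∣ (A.disjSum Z).card - 1)
    (hQ : Yy (con G X ψ) 6 b6 (A.disjSum Z) = 0) (hne : X ∪ A ≠ S)
    (hY : Yy G 6 b6 (X ∪ A) ≤ 4) : False := by
  obtain ⟨T, h1, h2, h3, h4'⟩ := step_clq h hst hXc hZ hres hQ
  have h4 : ∀ t ∈ T, dg G (X ∪ A) t ≤ 6 := by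
    intro t ht
    rw [← hst.gain_zero_dg hg (h1 ht)]
    exact (h4' t ht).le
  have hcu := hst.card_union
  obtain ⟨-, hL⟩ := low_34 h hr hst.sub_union hne (by omega) hY
  exact em6' h (by omega) (by omega) hst.sub_union hL (h1.trans subset_union_right) h2 h3 h4

end Pool.Agent.OX22
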