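import Pool.Agent.Lib_helper22.OX.K4b

/-!
# Six colours, residue 4: the triangle lemma
-/

set_option autoImplicit false
set_option linter.unusedSectionVars false
set_option linter.unusedVariables false
set_option synthInstance.maxSize 2000

open scoped Classical
open Finset
open Pool.Agent.O2 (PC Cb CrOn pr ms dg nd addE)
open Pool.Agent.O3 (con hit Clq Non)
open Pool.Agent.OW28 (NoCE Add1)
open Pool.Agent.OW
open Pool.Agent.OW.S5 (PS Tgt)
open Pool.Agent.OX25 (T6 tgap6 small_card lemmaT6)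
open Pool.Agent.OX28

namespace Pool.Agent.OX22

variable {V : Type} {G : SimpleGraph V} {S X T M R W : Finset V} {w x y z : V}

/-- the three edges -/
noncomputable def tr (x y z : V) : Finset (V × V) := {(x, y), (x, z), (y, z)}

theorem tr_card (x y z : V) : (tr x y z).card ≤ 3 := by
  unfold tr
  refine (card_insert_le _ _).trans ?_
  have := card_insert_le (x, z) ({(y, z)} : Finset (V × V))
  rw [card_singleton] at this
  omega

theorem tr_adj {a b : V} : (addE G (tr x y z)).Adj a b ↔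
    G.Adj a b ∨ (a ≠ b ∧ (a ∈ ({x, y, z} : Finset V) ∧ b ∈ ({x, y, z} : Finset V))) := by
  show (G.Adj a b ∨ (a ≠ b ∧ ((a, b) ∈ tr x y z ∨ (b, a) ∈ tr x y z))) ↔ _
  unfold tr
  simp only [mem_insert, mem_singleton, Prod.mk.injEq]
  constructor
  · rintro (h | ⟨h1, h2⟩)
    · exact Or.inl h
    · right
      refine ⟨h1, ?_⟩
      rcases h2 with (⟨rfl, rfl⟩ | ⟨rfl, rfl⟩ | ⟨rfl, rfl⟩) | (⟨rfl, rfl⟩ | ⟨rfl, rfl⟩ | ⟨rfl, rfl⟩) <;>
        simp
  · rintro (h | ⟨h1, h2, h3⟩)
    · exact Or.inl h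
    · right
      refine ⟨h1, ?_⟩
      rcases h2 with rfl | rfl | rfl <;> rcases h3 with rfl | rfl | rfl <;>
        first | (exact absurd rfl h1) | simp

/-- the number of new edges in a set which misses one of the vertices -/
theorem tr_miss {z0 : V} (h0 : z0 ∈ ({x, y, z} : Finset V)) {R' : Finset V} (hz : z0 ∉ R') :
    (newE G (tr x y z) R').card ≤ 1 := by
  rw [mem_insert, mem_insert, mem_singleton] at h0
  rw [card_le_one]
  intro e he f hf
  obtain ⟨h1, h2, h3, -, -⟩ := mem_filter.1 he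
  obtain ⟨g1, g2, g3, -, -⟩ := mem_filter.1 hf
  unfold tr at h1 g1
  rw [mem_insert, mem_insert, mem_singleton] at h1 g1
  rcases h0 with rfl | rfl | rfl <;> rcases h1 with rfl | rfl | rfl <;>
    rcases g1 with rfl | rfl | rfl <;>
    (first | rfl | exact absurd h2 hz | exact absurd h3 hz | exact absurd g2 hz |
      exact absurd g3 hz)

/-- the data of a critical set with the triangle -/
structure Tri (G : SimpleGraph V) (S W : Finset V) (x y z : V) : Prop where
  WS : W ⊆ S
  far : 5 ≤ (S \ W).card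
  hx : x ∈ W
  hy : y ∈ W
  hz : z ∈ W
  xy : x ≠ y
  xz : x ≠ z
  yz : y ≠ z
  nxy : ¬ G.Adj x y
  nxz : ¬ G.Adj x z
  nyz : ¬ G.Adj y z
  cr : CrOn (addE G (tr x y z)) W 6
  eq : Yy (addE G (tr x y z)) 6 b6 W = 0
  eqG : Yy G 6 b6 W = 6
  res : (W.card - 1) % 6 = 0
  card : 7 ≤ W.card

theorem tri_exists (h : Cex G S 6 b6) (hr : (S.card - 1) % 6 = 4) (hR : R ⊆ S)
    (hf : 5 ≤ (S \ R).card) (hx : x ∈ R) (hy : y ∈ R) (hz : z ∈ R) (hxy : x ≠ y) (hxz : x ≠ z)
    (hyz : y ≠ z)
    (hcol : ∀ ψ : V → Fin 6, PC G R ψ → ψ x = ψ y ∨ ψ x = ψ z ∨ ψ y = ψ z) :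
    ∃ W ⊆ R, Tri G S W x y z := by
  have hne : R ≠ S := by
    rintro rfl
    have h0 : (R \ R).card = 0 := by simp
    omega
  have hcb : ¬ Cb (addE G (tr x y z)) R 6 := by
    intro hcb
    obtain ⟨ψ, hψ⟩ := (Pool.Agent.O2.cb_fin (by omega : 0 < 6)).1 hcb
    rcases hcol ψ (fun a ha b hb hab => hψ a ha b hb (Or.inl hab)) with h1 | h1 | h1
    · exact hψ x hx y hy (tr_adj.2 (Or.inr ⟨hxy, by simp, by simp⟩)) h1
    · exact hψ x hx z hz (tr_adj.2 (Or.inr ⟨hxz, by simp, by simp⟩)) h1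
    · exact hψ y hy z hz (tr_adj.2 (Or.inr ⟨hyz, by simp, by simp⟩)) h1
  obtain ⟨W, hW, hcr, hWc, hlt, hnew, hWY⟩ := addE_small h.cr h.ih hR hne hcb
  have hWS := hW.trans hR
  have hfar : 5 ≤ (S \ W).card := hf.trans (card_le_card (sdiff_subset_sdiff (Subset.refl S) hW))
  have h6 := far_six h (Or.inr hr) hWS hWc (by omega)
  have hWne : W ≠ S := by rintro rfl; exact absurd hlt (lt_irrefl _)
  have hcard := (newE_card_le G (tr x y z) W).trans (tr_card x y z)
  have hn3 : (newE G (tr x y z) W).card = 3 := by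
    by_contra hn
    have h7 : ((newE G (tr x y z) W).card : ℤ) ≤ 2 := by
      have : (newE G (tr x y z) W).card ≤ 2 := by omega
      exact_mod_cast this
    linarith
  have hall : newE G (tr x y z) W = tr x y z :=
    eq_of_subset_of_card_le (filter_subset _ _) (by rw [hn3]; exact tr_card x y z)
  have e1 : (x, y) ∈ newE G (tr x y z) W := by rw [hall]; simp [tr]
  have e2 : (x, z) ∈ newE G (tr x y z) W := by rw [hall]; simp [tr]
  have e3 : (y, z) ∈ newE G (tr x y z) W := by rw [hall]; simp [tr]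
  obtain ⟨-, f1, f2, -, f3⟩ := mem_filter.1 e1
  obtain ⟨-, f4, f5, -, f6⟩ := mem_filter.1 e2
  obtain ⟨-, -, -, -, f7⟩ := mem_filter.1 e3
  rw [hn3] at hWY
  push_cast at hWY
  have hres : (W.card - 1) % 6 = 0 := by
    have h7 := tab_q4 h hr hWS hWne hWc
    by_contra hn
    unfold q4 at h7
    rw [if_neg hn] at h7
    split_ifs at h7 <;> linarith
  have h8 : Yy (addE G (tr x y z)) 6 b6 W ≤ 0 := by
    have := h.ih V (addE G (tr x y z)) W hcr hlt
    unfold Yy
    linarith
  have h9 := Yy_addE G 6 b6 (tr x y z) W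
  rw [hn3] at h9
  push_cast at h9
  exact ⟨W, hW, hWS, hfar, f1, f2, f5, hxy, hxz, hyz, f3, f6, f7, hcr, by linarith, by linarith,
    hres, hWc⟩

/-- a `6`-clique off one of the three vertices: it avoids the triangle or contains the two others -/
theorem tri_clq (h : Cex G S 6 b6) (hr : (S.card - 1) % 6 = 4) (t : Tri G S W x y z) {z0 : V}
    (h0 : z0 ∈ ({x, y, z} : Finset V)) :
    ∃ T ⊆ W, z0 ∉ T ∧ T.card = 6 ∧ Clq (addE G (tr x y z)) T ∧
      (∀ u ∈ T, dg (addE G (tr x y z)) W u = 6) ∧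
      ((∀ u ∈ T, u ∉ ({x, y, z} : Finset V)) ∨ ∀ u ∈ ({x, y, z} : Finset V), u ≠ z0 → u ∈ T ∧
        ∀ v ∈ W, (addE G (tr x y z)).Adj u v → v = z0 ∨ v ∈ T) := by
  have hsub : ∀ u ∈ ({x, y, z} : Finset V), u ∈ W := by
    intro u hu
    rw [mem_insert, mem_insert, mem_singleton] at hu
    rcases hu with rfl | rfl | rfl
    · exact t.hx
    · exact t.hy
    · exact t.hz
  have hz0W := hsub z0 h0
  have hWlt : W.card < S.card := by
    have h1 := card_sdiff_add_card_eq_card t.WS
    have := t.far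
    omega
  have ih : IH 6 b6 (W.card + 1) := by
    intro V' G' S' h1 h2
    exact h.ih V' G' S' h1 (by omega)
  have hT : Tgt 6 b6 (addE G (tr x y z)) W := ⟨t.cr, Nat.dvd_of_mod_eq_zero t.res, t.eq⟩
  obtain ⟨T, hTW, hTc, hTq, hTd⟩ := lemmaT6 T6_6 ih hT hz0W (by
    intro R' hR' hYR
    by_contra hpR
    have hd : 6 ∣ R'.card - 1 := by
      by_contra hd
      have h1 := (tgap6 T6_6 ih hT hR').2 hd
      push_cast at h1
      linarith
    have hc' := small_card hR' hd
    have h1 := Yy_addE G 6 b6 (tr x y z) R'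
    have h2 : ((newE G (tr x y z) R').card : ℤ) ≤ 1 := by
      exact_mod_cast tr_miss (G := G) h0 hpR
    have h3 := far_six h (Or.inr hr) (hR'.sub.trans t.WS) hc' (by
      have h4 := card_le_card (sdiff_subset_sdiff (Subset.refl S) hR'.sub)
      have := t.far
      omega)
    linarith)
  have hz0T : z0 ∉ T := fun e => (mem_erase.1 (hTW e)).1 rfl
  refine ⟨T, hTW.trans (erase_subset _ _), hz0T, hTc, hTq, hTd, ?_⟩
  by_cases hmeet : ∃ u0 ∈ T, u0 ∈ ({x, y, z} : Finset V)
  · right
    -- the neighbours of a vertex of the triangle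
    have hN : ∀ u ∈ T, u ∈ ({x, y, z} : Finset V) → ∀ v ∈ W, (addE G (tr x y z)).Adj u v →
        v = z0 ∨ v ∈ T := by
      intro u hu huP v hv huv
      have h1 : insert z0 (T.erase u) ⊆ W.filter fun v => (addE G (tr x y z)).Adj u v := by
        intro a ha
        rcases mem_insert.1 ha with rfl | ha
        · refine mem_filter.2 ⟨hz0W, tr_adj.2 (Or.inr ⟨?_, huP, h0⟩)⟩
          exact fun e => hz0T (e ▸ hu)
        · obtain ⟨h2, h3⟩ := mem_erase.1 ha
          exact mem_filter.2 ⟨mem_of_mem_erase (hTW h3), hTq u hu a h3 h2.symm⟩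
      have h2 : insert z0 (T.erase u) = W.filter fun v => (addE G (tr x y z)).Adj u v := by
        apply eq_of_subset_of_card_le h1
        rw [card_insert_of_notMem (fun e => hz0T (mem_of_mem_erase e)), card_erase_of_mem hu, hTc]
        exact (hTd u hu).le
      have h3 : v ∈ W.filter fun v => (addE G (tr x y z)).Adj u v := mem_filter.2 ⟨hv, huv⟩
      rw [← h2] at h3
      rcases mem_insert.1 h3 with h4 | h4
      · exact Or.inl h4
      · exact Or.inr (mem_of_mem_erase h4)
    obtain ⟨u0, hu0, hu0P⟩ := hmeet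
    intro u hu huz
    have huT : u ∈ T := by
      by_cases e : u = u0
      · rw [e]; exact hu0
      · have h1 := hN u0 hu0 hu0P u (hsub u hu) (tr_adj.2 (Or.inr ⟨fun e' => e e'.symm, hu0P, hu⟩))
        exact h1.resolve_left huz
    exact ⟨huT, hN u huT hu⟩
  · left
    push Not at hmeet
    exact hmeet

/-- there is a `6`-clique which avoids the triangle, or the set has seven vertices -/
theorem tri_seven (h : Cex G S 6 b6) (hr : (S.card - 1) % 6 = 4) (t : Tri G S W x y z)
    (hx : x ∈ bd G S W) (hy : y ∈ bd G S W) : W.card = 7 := by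
  by_contra h7
  have h8 : 7 < W.card := by have := t.card; omega
  have hWne : W ≠ S := by
    rintro rfl
    have := t.far
    have h0 : (W \ W).card = 0 := by simp
    omega
  have hxP : x ∈ ({x, y, z} : Finset V) := by simp
  have hyP : y ∈ ({x, y, z} : Finset V) := by simp
  have hzP : z ∈ ({x, y, z} : Finset V) := by simp
  -- no clique avoids the triangle
  have key : ∀ T ⊆ W, T.card = 6 → Clq (addE G (tr x y z)) T →
      (∀ u ∈ T, dg (addE G (tr x y z)) W u = 6) →
      ¬ ∀ u ∈ T, u ∉ ({x, y, z} : Finset V) := by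
    intro T hT hTc hTq hTd hav
    refine t.xy (em_three_two h (by omega) t.WS hWne hT hTc ?_ ?_ ?_ hx hy ?_ ?_)
    · intro a ha c hc hac
      rcases tr_adj.1 (hTq a ha c hc hac) with h1 | ⟨-, h1, -⟩
      · exact h1
      · exact absurd h1 (hav a ha)
    · intro u hu
      exact (dg_le_addE _ W u).trans (hTd u hu).le
    · intro ψ hψ
      exact k0 h hr t.WS t.card t.far t.res t.eqG.le hψ
    · exact fun e => hav x e hxP
    · exact fun e => hav y e hyP
  obtain ⟨T1, g1, g2, g3, g4, g5, g6⟩ := tri_clq h hr t hxP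
  obtain ⟨T2, f1, f2, f3, f4, f5, f6⟩ := tri_clq h hr t hyP
  have g7 := g6.resolve_left (key T1 g1 g3 g4 g5)
  have f7 := f6.resolve_left (key T2 f1 f3 f4 f5)
  obtain ⟨gz, gzN⟩ := g7 z hzP (fun e => t.xz e.symm)
  obtain ⟨gy, -⟩ := g7 y hyP (fun e => t.xy e.symm)
  obtain ⟨fz, fzN⟩ := f7 z hzP (fun e => t.yz e.symm)
  obtain ⟨fx, -⟩ := f7 x hxP t.xy
  -- a clique with seven vertices
  have hC : ∀ u ∈ T1, (addE G (tr x y z)).Adj x u := by
    intro u hu
    have hxu : x ≠ u := fun e => g2 (e ▸ hu)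
    by_cases huP : u ∈ ({x, y, z} : Finset V)
    · exact tr_adj.2 (Or.inr ⟨hxu, hxP, huP⟩)
    · have huz : z ≠ u := fun e => huP (e ▸ hzP)
      have huy : u ≠ y := fun e => huP (e ▸ hyP)
      have h1 := (fzN u (g1 hu) (g4 z gz u hu huz)).resolve_left huy
      exact f4 x fx u h1 hxu
  have hcb : Cb (addE G (tr x y z)) (insert x T1) 6 := by
    refine t.cr.sub ?_ ?_
    · intro a ha
      rcases mem_insert.1 ha with rfl | ha
      · exact t.hx
      · exact g1 ha
    · intro e
      have h9 := card_insert_of_notMem g2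
      rw [e] at h9
      omega
  obtain ⟨φ, hφ⟩ := (Pool.Agent.O2.cb_fin (by omega : 0 < 6)).1 hcb
  have h9 := card_insert_of_notMem g2
  have h10 : (univ : Finset (Fin 6)).card < (insert x T1).card := by
    rw [card_univ, Fintype.card_fin]; omega
  obtain ⟨a, ha, c, hc, hac, he⟩ :=
    exists_ne_map_eq_of_card_lt_of_maps_to h10 (f := φ) (fun x _ => mem_coe.2 (mem_univ _))
  refine hφ a ha c hc ?_ he
  rcases mem_insert.1 ha with ha | ha
  · rcases mem_insert.1 hc with hc | hc
    · exact absurd (ha.trans hc.symm) hac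
    · rw [ha]; exact hC c hc
  · rcases mem_insert.1 hc with hc | hc
    · rw [hc]; exact (hC a ha).symm
    · exact g4 a ha c hc hac

end Pool.Agent.OX22
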