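import Pool.Agent.Lib_helper22.OX.TR4
import Pool.Agent.Lib_helper63.OX.C1a

/-!
# Six colours, residue 4: a triangle at a low vertex is impossible if (c1) holds for larger classes
-/

set_option autoImplicit false
set_option linter.unusedSectionVars false
set_option linter.unusedVariables false
set_option synthInstance.maxSize 2000

open scoped Classical
open Finset
open Pool.Agent.O2 (PC Cb CrOn pr ms dg nd addE)
open Pool.Agent.O3 (con hit Clq Non)
open Pool.Agent.OW28 (NoCE Add1)
open Pool.Agent.OW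
open Pool.Agent.OX28
open Pool.Agent.OX63 (P1 Cs)

namespace Pool.Agent.OX22

variable {V : Type} {G : SimpleGraph V} {S X T M R W : Finset V} {w x y z : V}

theorem bd_mono {a : V} (hW : W ⊆ R) (ha : a ∈ W) (hb : a ∈ bd G S R) : a ∈ bd G S W := by
  obtain ⟨-, v, hv, hav⟩ := mem_filter.1 hb
  obtain ⟨h1, h2⟩ := mem_sdiff.1 hv
  exact mem_filter.2 ⟨ha, v, mem_sdiff.2 ⟨h1, fun e => h2 (hW e)⟩, hav⟩

/-- seven vertices: three low vertices off the boundary -/
theorem tri_low (h : Cex G S 6 b6) (hr : (S.card - 1) % 6 = 4) (t : Tri G S W x y z)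
    (hx : x ∈ bd G S W) (hy : y ∈ bd G S W) :
    (∀ a ∈ W, ∀ b ∈ W, a ≠ b → a ∉ ({x, y, z} : Finset V) → G.Adj a b) ∧
    ∃ D ⊆ W, 3 ≤ D.card ∧ ∀ g ∈ D, g ∉ ({x, y, z} : Finset V) ∧ dg G S g = 6 ∧
      ∀ u ∈ S, G.Adj g u → u ∈ W := by
  have h7 := tri_seven h hr t hx hy
  have hWne : W ≠ S := by
    rintro rfl
    have := t.far
    have h0 : (W \ W).card = 0 := by simp
    omega
  have hq := Pool.Agent.OW.S5.clq_of_card t.cr (by omega)
  have hadj : ∀ a ∈ W, ∀ b ∈ W, a ≠ b → a ∉ ({x, y, z} : Finset V) → G.Adj a b := by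
    intro a ha b hb hab haP
    rcases tr_adj.1 (hq a ha b hb hab) with h1 | ⟨-, h1, -⟩
    · exact h1
    · exact absurd h1 haP
  refine ⟨hadj, ?_⟩
  obtain ⟨ψ, hψ, hψxy⟩ := (add_one Nm6 h).all (by omega) h.cr t.WS hWne t.hx t.hy t.xy
  have hk := k0 h hr t.WS t.card t.far t.res t.eqG.le hψ
  set E := W.filter fun g => g ∉ ({x, y, z} : Finset V) ∧ g ∈ bd G S W with hE
  set D := W.filter fun g => g ∉ ({x, y, z} : Finset V) ∧ g ∉ bd G S W with hD
  have hEc : E.card ≤ 1 := by
    have h1 : (insert x (insert y E)).image ψ ⊆ (bd G S W).image ψ := by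
      apply image_subset_image
      intro a ha
      rcases mem_insert.1 ha with ha | ha
      · rw [ha]; exact hx
      · rcases mem_insert.1 ha with ha | ha
        · rw [ha]; exact hy
        · exact (mem_filter.1 ha).2.2
    have hxE : x ∉ E := fun e => (mem_filter.1 e).2.1 (by simp)
    have hyE : y ∉ E := fun e => (mem_filter.1 e).2.1 (by simp)
    have h2 : ((insert x (insert y E)).image ψ).card = (insert x (insert y E)).card := by
      apply card_image_of_injOn
      have hEW : ∀ a ∈ E, a ∈ W ∧ a ∉ ({x, y, z} : Finset V) := fun a ha =>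
        ⟨(mem_filter.1 ha).1, (mem_filter.1 ha).2.1⟩
      have hne : ∀ a ∈ insert x (insert y E), ∀ b ∈ E, a ≠ b → ψ b ≠ ψ a := by
        intro a ha b hb hab
        refine hψ b (hEW b hb).1 a ?_ (hadj b (hEW b hb).1 a ?_ hab.symm (hEW b hb).2) <;>
        · rcases mem_insert.1 ha with ha | ha
          · rw [ha]; exact t.hx
          · rcases mem_insert.1 ha with ha | ha
            · rw [ha]; exact t.hy
            · exact (hEW a ha).1
      intro a ha b hb hab
      have ha := mem_coe.1 ha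
      have hb := mem_coe.1 hb
      by_contra hne'
      rcases mem_insert.1 ha with ha1 | ha1
      · rcases mem_insert.1 hb with hb1 | hb1
        · exact hne' (ha1.trans hb1.symm)
        · rcases mem_insert.1 hb1 with hb2 | hb2
          · rw [ha1, hb2] at hab
            exact hψxy hab
          · exact hne a ha b hb2 hne' hab.symm
      · rcases mem_insert.1 ha1 with ha2 | ha2
        · rcases mem_insert.1 hb with hb1 | hb1
          · rw [ha2, hb1] at hab
            exact hψxy hab.symm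
          · rcases mem_insert.1 hb1 with hb2 | hb2
            · exact hne' (ha2.trans hb2.symm)
            · exact hne a ha b hb2 hne' hab.symm
        · exact hne b hb a ha2 (Ne.symm hne') hab
    have h3 := card_le_card h1
    rw [h2, card_insert_of_notMem, card_insert_of_notMem hyE] at h3
    · omega
    · rw [mem_insert, not_or]
      exact ⟨t.xy, hxE⟩
  have hcov : W ⊆ (D ∪ E) ∪ {x, y, z} := by
    intro a ha
    by_cases haP : a ∈ ({x, y, z} : Finset V)
    · exact mem_union_right _ haP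
    · apply mem_union_left
      by_cases hab : a ∈ bd G S W
      · exact mem_union_right _ (mem_filter.2 ⟨ha, haP, hab⟩)
      · exact mem_union_left _ (mem_filter.2 ⟨ha, haP, hab⟩)
  have h1 := (card_le_card hcov).trans (card_union_le _ _)
  have h2 := card_union_le D E
  have h3 : ({x, y, z} : Finset V).card ≤ 3 := card_le_three
  refine ⟨D, filter_subset _ _, by omega, ?_⟩
  intro g hg
  obtain ⟨hgW, hgP, hgb⟩ := mem_filter.1 hg
  refine ⟨hgP, ?_, fun u hu hgu => off_bd hgW hgb hu hgu⟩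
  rw [dg_off_bd t.WS hgW hgb]
  have h4 : (W.filter fun b => G.Adj g b) = W.erase g := by
    ext b
    rw [mem_filter, mem_erase]
    constructor
    · rintro ⟨h5, h6⟩
      exact ⟨h6.ne', h5⟩
    · rintro ⟨h5, h6⟩
      exact ⟨h6, hadj g hgW b h6 h5.symm hgP⟩
  unfold dg
  rw [h4, card_erase_of_mem hgW, h7]

/-- (4.0) -/
theorem tri_false (h : Cex G S 6 b6) (hr : (S.card - 1) % 6 = 4) (hR : R ⊆ S)
    (hf : 5 ≤ (S \ R).card) (hx : x ∈ R) (hy : y ∈ R) (hz : z ∈ R) (hxy : x ≠ y) (hxz : x ≠ z)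
    (hyz : y ≠ z)
    (hcol : ∀ ψ : V → Fin 6, PC G R ψ → ψ x = ψ y ∨ ψ x = ψ z ∨ ψ y = ψ z)
    (hxb : x ∈ bd G S R) (hyb : y ∈ bd G S R) (hlow : dg G S x = 6)
    (ih : ∀ x' v', (tws G S x).card < (tws G S x').card → P1 G S x' v' →
      Clq G (cn G S v' x')) : False := by
  obtain ⟨W, hWR, t⟩ := tri_exists h hr hR hf hx hy hz hxy hxz hyz hcol
  have hxW := bd_mono hWR t.hx hxb
  have hyW := bd_mono hWR t.hy hyb
  obtain ⟨hadj, D, hDW, hD3, hD⟩ := tri_low h hr t hxW hyW
  obtain ⟨g, hg⟩ := card_pos.1 (show 0 < D.card by omega)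
  obtain ⟨hgP, hgd, hgN⟩ := hD g hg
  have hgW := hDW hg
  have hgx : g ≠ x := fun e => hgP (by rw [e]; simp)
  have hgy : g ≠ y := fun e => hgP (by rw [e]; simp)
  have hgz : g ≠ z := fun e => hgP (by rw [e]; simp)
  have agx := hadj g hgW x t.hx hgx hgP
  have agy := hadj g hgW y t.hy hgy hgP
  have agz := hadj g hgW z t.hz hgz hgP
  -- the twins of `g`
  have htg : 2 ≤ (tws G S g).card := by
    have h1 : D.erase g ⊆ tws G S g := by
      intro a ha
      obtain ⟨hag, haD⟩ := mem_erase.1 ha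
      obtain ⟨haP, had, haN⟩ := hD a haD
      have haW := hDW haD
      refine mem_filter.2 ⟨t.WS haW, hag, hadj g hgW a haW hag.symm hgP, ?_⟩
      intro c hc hcg hca
      constructor
      · intro h2
        exact hadj a haW c (hgN c hc h2) hca.symm haP
      · intro h2
        exact hadj g hgW c (haN c hc h2) hcg.symm hgP
    have h2 := card_le_card h1
    rw [card_erase_of_mem hg] at h2
    omega
  -- the low vertex `x` has no twin
  have htx : (tws G S x).card = 0 := by
    rw [card_eq_zero, eq_empty_iff_forall_notMem]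
    intro c hc
    obtain ⟨hcS, hcx, hxc, htw⟩ := mem_filter.1 hc
    have hcW : c ∈ W := by
      by_cases hcg : c = g
      · rw [hcg]; exact hgW
      · exact hgN c hcS ((htw g (t.WS hgW) hgx (fun e => hcg e.symm)).1 agx.symm).symm
    have hcy : c ≠ y := fun e => t.nxy (e ▸ hxc)
    have hcz : c ≠ z := fun e => t.nxz (e ▸ hxc)
    have hcP : c ∉ ({x, y, z} : Finset V) := by
      rw [mem_insert, mem_insert, mem_singleton, not_or, not_or]
      exact ⟨hcx, hcy, hcz⟩
    exact t.nxy ((htw y (t.WS t.hy) t.xy.symm (Ne.symm hcy)).2 (hadj c hcW y t.hy hcy hcP))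
  have hp : P1 G S g x := by
    refine ⟨t.WS hgW, hgd, t.WS t.hx, agx, ?_, by rw [hlow]; omega, ?_⟩
    · intro htw
      exact t.nxy ((htw.2 y (t.WS t.hy) hgy.symm t.xy.symm).1 agy)
    · intro _
      rw [htx]
      omega
  have h1 := ih g x (by omega) hp
  refine t.nyz (h1 y ?_ z ?_ t.yz)
  · exact Pool.Agent.OW.mem_cn.2 (Or.inr ⟨t.xy.symm, t.WS t.hy, agy⟩)
  · exact Pool.Agent.OW.mem_cn.2 (Or.inr ⟨t.xz.symm, t.WS t.hz, agz⟩)

end Pool.Agent.OX22
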